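import Pool.Agent.T9h77.NF.Rest2
import Pool.Agent.T9h57.NF.CoreN

/-!
# Number fields: the functional equation of all functionals on `D_1 C(K)`
-/

set_option autoImplicit false

namespace Pool.Agent.T9h77.NF

/-- `SpanPerN` for every number field. -/
theorem spanPerN (K : Type) [Field K] [NumberField K] : SpanPerN K :=
  spanPerN_of_coreNOf K (T9h57.NF.coreNOf K)

end Pool.Agent.T9h77.NF
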