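import Pool.Agent.T9h57.QD.Spec2
import Pool.Agent.H39R2.Gon.Defs

/-!
# Number fields: `D_1 C_n(K)` is spanned by `Li_n(x)`: forms, places, typical points

Here `UV K = Additive Kˣ` and `cl x` is the class of `x` (`0` for `x = 0`), as in `SpanDual`.
-/

set_option autoImplicit false

namespace Pool.Agent.T9h77.NF

open Finset NumberField H39Gon Pool.Agent.T9h42.GF Pool.Agent.T9h57.QD
open scoped TensorProduct

/-- PIECE `PtsG`: as `Pts`, for functions on any set. -/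
def PtsG : Prop :=
  ∀ (Z : Type) (S : Set Z) (L : Type) [Fintype L] (φ : L → Z → ℝ),
    (∀ a : L → ℝ, (∀ z ∈ S, ∑ l, a l * φ l z = 0) → a = 0) →
    ∃ (n : ℕ) (t : Fin n → Z) (C₀ : ℝ), n ≤ Fintype.card L ∧ (∀ j, t j ∈ S) ∧ 0 < C₀ ∧
      ∀ (v : L → ℝ) (B : ℝ), (∀ j, |∑ l, φ l (t j) * v l| ≤ B) → ∀ l, |v l| ≤ C₀ * B

/-- PIECE `ExtR`: extension of scalars for `ℤ`-multilinear forms (`g` plays the role of the forms
`Q`, `f` of the forms `P`). By induction on `n` with `MultilinearMap.curryLeft` and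
`LinearMap.liftBaseChange`. -/
def ExtR : Prop :=
  ∀ (M : Type) [AddCommGroup M] (n : ℕ),
    (∀ f : MultilinearMap ℤ (fun _ : Fin n => M) ℝ,
      ∃ F : MultilinearMap ℝ (fun _ : Fin n => ℝ ⊗[ℤ] M) ℝ,
        ∀ x : Fin n → M, F (fun i => (1 : ℝ) ⊗ₜ[ℤ] x i) = f x) ∧
    (∀ g : MultilinearMap ℤ (fun _ : Fin n => M) (M →ₗ[ℤ] ℝ),
      ∃ G : MultilinearMap ℝ (fun _ : Fin n => ℝ ⊗[ℤ] M) ((ℝ ⊗[ℤ] M) →ₗ[ℝ] ℝ),
        ∀ (x : Fin n → M) (y : M), G (fun i => (1 : ℝ) ⊗ₜ[ℤ] x i) ((1 : ℝ) ⊗ₜ[ℤ] y) = g x y)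

section field

variable (K : Type) [Field K] [NumberField K]

noncomputable instance instDecPl : DecidableEq (InfinitePlace K) := Classical.decEq _

/-- `K^× ⊗ ℝ`. -/
abbrev VK : Type := ℝ ⊗[ℤ] UV K

variable {K}

/-- the class of an element of `K` in `K^× ⊗ ℝ`. -/
noncomputable def cr (x : K) : VK K := (1 : ℝ) ⊗ₜ[ℤ] cl x

/-- the class of an integer. -/
noncomputable def co (x : 𝓞 K) : VK K := cr (x : K)

/-- the logarithms of the absolute values. -/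
noncomputable def lgA : UV K →ₗ[ℤ] (InfinitePlace K → ℝ) :=
  AddMonoidHom.toIntLinearMap
    { toFun := fun u v => Real.log (v ((Additive.toMul u : Kˣ) : K))
      map_zero' := by funext v; simp
      map_add' := fun a b => by
        funext v
        simp only [toMul_add, Units.val_mul, map_mul, Pi.add_apply]
        rw [Real.log_mul] <;> simp }

/-- the logarithms of the absolute values, on `K^× ⊗ ℝ`. -/
noncomputable def Lg : VK K →ₗ[ℝ] (InfinitePlace K → ℝ) := LinearMap.liftBaseChange ℝ lgA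

/-- the point of `K_∞` (for real places the value is real). -/
noncomputable def emb (x : K) : InfinitePlace K → ℂ := fun v => v.embedding x

variable (K)

/-- the punctured polydisc in `K_∞`. -/
def Dm : Set (InfinitePlace K → ℂ) :=
  {z | ∀ v : InfinitePlace K, 0 < ‖z v‖ ∧ ‖z v‖ < 1 ∧ (v.IsReal → (z v).im = 0)}

variable {K}

/-- monomial in the logarithms. -/
noncomputable def mon {m : ℕ} (k : InfinitePlace K → Fin (m + 1)) (z : InfinitePlace K → ℂ) : ℝ :=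
  ∏ v, Real.log ‖z v‖ ^ (k v : ℕ)

/-- linear independence of the functions `∏_v log^(k_v) |z_v|`, times `1`, `log |1 - z_v|` or
`ψ_i(z)`. -/
def LInd {E : Type} [Fintype E] (ψ : E → (InfinitePlace K → ℂ) → ℝ) : Prop :=
  ∀ (m : ℕ) (a₀ : (InfinitePlace K → Fin (m + 1)) → ℝ)
    (a₁ : InfinitePlace K → (InfinitePlace K → Fin (m + 1)) → ℝ)
    (b : E → (InfinitePlace K → Fin (m + 1)) → ℝ),
    (∀ z ∈ Dm K, ∑ k, a₀ k * mon k z + ∑ v, ∑ k, a₁ v k * mon k z * Real.log ‖1 - z v‖ +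
        ∑ i, ∑ k, b i k * mon k z * ψ i z = 0) →
    a₀ = 0 ∧ a₁ = 0 ∧ b = 0

/-- `(Q, P)` is an (inhomogeneous) Steinberg form: for all `x ∈ K` in the polydisc
`∑_μ Q_μ(x,...,x;1-x) + ∑_i ∑_μ P_{i,μ}(x,...,x) ψ_i(x) = 0`; `Q_μ` has `μ + 1` arguments and
`P_{i,μ}` has `μ` arguments. -/
def St {m : ℕ} {E : Type} [Fintype E]
    (Q : ∀ μ : Fin m, MultilinearMap ℝ (fun _ : Fin (μ : ℕ) => VK K) (VK K →ₗ[ℝ] ℝ))
    (P : ∀ (_ : E) (μ : Fin m), MultilinearMap ℝ (fun _ : Fin (μ : ℕ) => VK K) ℝ)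
    (ψ : E → (InfinitePlace K → ℂ) → ℝ) : Prop :=
  ∀ x : K, emb x ∈ Dm K →
    ∑ μ, Q μ (fun _ => cr x) (cr (1 - x)) + ∑ i, (∑ μ, P i μ (fun _ => cr x)) * ψ i (emb x) = 0

/-- the ideal `(x)` is a power `p^j`, `j ≥ j₀`, of a prime ideal. -/
def PPow (j₀ : ℕ) (x : 𝓞 K) : Prop :=
  ∃ p : Ideal (𝓞 K), p.IsPrime ∧ p ≠ ⊥ ∧ ∃ j : ℕ, j₀ ≤ j ∧ Ideal.span {x} = p ^ j

/-- `x` is a unit times a power of `ϖ`. -/
def Absb (ϖ x : 𝓞 K) : Prop := ∃ (u : (𝓞 K)ˣ) (k : ℕ), x = u * ϖ ^ k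

variable (K)

/-- typical points: for `ϖ₁, ϖ₂` (powers of prime ideals) and `l` (unit or power of a prime ideal)
there is `w` such that for every finite family of `A i` and exponents `ex i ≥ 1` there are `a, b, c`
such that, for `w = [a]+[A i]-[b]-[l^(ex i)]` and `v = [c]-[b]-[l^(ex i)]`,
`∑_μ Q_μ(w, ..., w; v) = 0` and `∑_μ P_{k,μ}(w, ..., w) = 0`. -/
def TPN : Prop :=
  ∀ (m : ℕ) (E : Type) [Fintype E]
    (Q : ∀ μ : Fin m, MultilinearMap ℝ (fun _ : Fin (μ : ℕ) => VK K) (VK K →ₗ[ℝ] ℝ))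
    (P : ∀ (_ : E) (μ : Fin m), MultilinearMap ℝ (fun _ : Fin (μ : ℕ) => VK K) ℝ)
    (ψ : E → (InfinitePlace K → ℂ) → ℝ),
    (∀ i, ContinuousOn (ψ i) (Dm K)) → LInd ψ → St Q P ψ →
    ∀ ϖ₁ ϖ₂ l : 𝓞 K, PPow 1 ϖ₁ → PPow 1 ϖ₂ → PPow 0 l →
      IsCoprime ϖ₁ ϖ₂ → IsCoprime ϖ₁ l → IsCoprime ϖ₂ l → ∀ T : ℕ,
    ∃ w : ℕ, ∀ (I : Type) [Fintype I] (A : I → 𝓞 K) (ex : I → ℕ), Fintype.card I ≤ T →
      (∀ i, 1 ≤ ex i ∧ ex i ≤ T) →
      (∀ i, A i ≠ 0 ∧ IsCoprime (A i) (ϖ₁ * ϖ₂ * l)) →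
      (∀ (i : I) (p : Ideal (𝓞 K)), p.IsPrime → p ≠ ⊥ → Ideal.absNorm p ≤ w →
        A i * (ϖ₁ * ϖ₂ * l) ∈ p) →
      (∀ (i j : I) (p : Ideal (𝓞 K)), p.IsPrime → (A i ∈ p ↔ A j ∈ p)) →
      ∃ a b c : 𝓞 K, a ≠ 0 ∧ b ≠ 0 ∧ c ≠ 0 ∧ ∀ i,
        ∑ μ, Q μ (fun _ => co a + co (A i) - co b - co (l ^ ex i))
          (co c - co b - co (l ^ ex i)) = 0 ∧
        ∀ k, ∑ μ, P k μ (fun _ => co a + co (A i) - co b - co (l ^ ex i)) = 0

/-- the analytic theorem, forms on `K^× ⊗ ℝ`. -/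
def ANN : Prop :=
  ∀ (m : ℕ) (E : Type) [Fintype E]
    (Q : ∀ μ : Fin m, MultilinearMap ℝ (fun _ : Fin (μ : ℕ) => VK K) (VK K →ₗ[ℝ] ℝ))
    (P : ∀ (_ : E) (μ : Fin m), MultilinearMap ℝ (fun _ : Fin (μ : ℕ) => VK K) ℝ)
    (ψ : E → (InfinitePlace K → ℂ) → ℝ),
    (∀ i, ContinuousOn (ψ i) (Dm K)) → LInd ψ → St Q P ψ →
    (∀ (μ : Fin m) (s v : VK K), Q μ (fun _ => s) v = 0) ∧
    ∀ (k : E) (μ : Fin m) (s : VK K), P k μ (fun _ => s) = 0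

/-- PIECE `EndN`. As `EndQ` (`T9h89/QD/EndQ.lean`). `K^× ⊗ ℝ` is spanned by the classes of the units and
of generators `x_p` of `p^h`, `h` the class number (`PPow`); by polarisation it is enough to show
`∑_σ Q_μ(p_σ(1),...,p_σ(μ);v) = 0` for `p_1, ..., p_μ, v` in this spanning set. If `v = x_p` let
`p_1, ..., p_l` be those different from `v` (in the sense of the prime ideals) and the other ones equal
to `v`; if `v` is a unit put `l = μ`. `k = μ + 1 - l`, `ϖ₁, ϖ₂` further `x_p`, `T = 2^(μ+1) + 2(μ+1)`, `w` from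
`TPN` with `l := v`, `A₀` the product of all `x_p` with `absNorm p ≤ w`, `p` different from all primes
occurring; `A_ε = A₀ ∏_{i ≤ l} p_i^(1+ε_i)`, `ex_ε = ∑_j (1+ε_j)`. -/
def EndN : Prop := TPN K → ANN K

/-- PIECE `SecN` (Dirichlet's unit theorem, `unitLattice_span_eq_top`): the classes of the units and of
`ϖ` generate a subspace of `K^× ⊗ ℝ` which is mapped isomorphically by `Lg`. -/
def SecN : Prop :=
  ∀ ϖ : 𝓞 K, ϖ ≠ 0 → ¬ IsUnit ϖ → ∃ s : (InfinitePlace K → ℝ) →ₗ[ℝ] VK K,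
    (∀ y, Lg (s y) = y) ∧ ∀ x : 𝓞 K, Absb ϖ x → s (Lg (co x)) = co x

/-! ## the polylogarithms -/

/-- polylogarithm series. -/
noncomputable def Lic (s : ℕ) (z : ℂ) : ℂ := ∑' k : ℕ, z ^ (k + 1) / ((k : ℂ) + 1) ^ s

/-- Zagier's single valued polylogarithm for `|z| < 1`: real part (`n` odd) or imaginary part (`n`
even) of `∑_{k<n} (2^k B_k / k!) log^k|z| Li_{n-k}(z)`. -/
noncomputable def Lcv (n : ℕ) (z : ℂ) : ℝ :=
  if Odd n then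
    (∑ k ∈ range n, ((2 ^ k * (bernoulli k : ℝ) / (k.factorial : ℝ) * Real.log ‖z‖ ^ k : ℝ) : ℂ) *
      Lic (n - k) z).re
  else
    (∑ k ∈ range n, ((2 ^ k * (bernoulli k : ℝ) / (k.factorial : ℝ) * Real.log ‖z‖ ^ k : ℝ) : ℂ) *
      Lic (n - k) z).im

/-- the numbers `n`, `2 ≤ n ≤ N`, `n` odd if `v` is real: the regulators `Lcv n (z v)`. -/
noncomputable def wts (N : ℕ) (v : InfinitePlace K) : Finset ℕ := by
  classical exact (Icc 2 N).filter (fun n => v.IsReal → Odd n)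

/-- PIECE `LIperN`. One place at a time: fix all other coordinates, then the coefficients of the
monomials in the other logarithms are combinations of the functions for the one place; real places:
`LIper` (`T9h91/QD`); complex places: expansion for `z → 0`, `z = ρ e^(iθ)`. -/
def LIperN : Prop :=
  ∀ (N m : ℕ) (a₀ : (InfinitePlace K → Fin (m + 1)) → ℝ)
    (a₁ : InfinitePlace K → (InfinitePlace K → Fin (m + 1)) → ℝ)
    (b : InfinitePlace K → ℕ → (InfinitePlace K → Fin (m + 1)) → ℝ),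
    (∀ z ∈ Dm K, ∑ k, a₀ k * mon k z + ∑ v, ∑ k, a₁ v k * mon k z * Real.log ‖1 - z v‖ +
        ∑ v, ∑ n ∈ wts K N v, ∑ k, b v n k * mon k z * Lcv n (z v) = 0) →
    a₀ = 0 ∧ a₁ = 0 ∧ ∀ v, ∀ n ∈ wts K N v, b v n = 0

/-- PIECE `LcvCont`. -/
def LcvCont : Prop := ∀ n : ℕ, 2 ≤ n → ContinuousOn (Lcv n) {z : ℂ | 0 < ‖z‖ ∧ ‖z‖ < 1}

/-- the functional equation of all functionals on `D_1 C(K)`. -/
def SpanPerN : Prop :=
  ∀ (m N : ℕ) (Q : ∀ μ : Fin m, MultilinearMap ℝ (fun _ : Fin (μ : ℕ) => VK K) (VK K →ₗ[ℝ] ℝ))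
    (P : ∀ (_ : InfinitePlace K) (_ : ℕ) (μ : Fin m),
      MultilinearMap ℝ (fun _ : Fin (μ : ℕ) => VK K) ℝ),
    (∀ x : K, emb x ∈ Dm K → ∑ μ, Q μ (fun _ => cr x) (cr (1 - x)) +
      ∑ v, ∑ n ∈ wts K N v, (∑ μ, P v n μ (fun _ => cr x)) * Lcv n (emb x v) = 0) →
    (∀ (μ : Fin m) (s v : VK K), Q μ (fun _ => s) v = 0) ∧
    ∀ v, ∀ n ∈ wts K N v, ∀ (μ : Fin m) (s : VK K), P v n μ (fun _ => s) = 0

/-- PIECE `SpanPerNOf` (bookkeeping: `ψ` = the functions `Lcv n (z v)`, `n ∈ wts K N v`; cf.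
`T9h5/QD/SpanPer.lean`). -/
def SpanPerNOf : Prop := ANN K → LIperN K → LcvCont → SpanPerN K

/-! ## the count theorem (abstract form) -/

/-- slots: three finite sets of nonzero integers with probabilities. -/
structure Slots where
  /-- slot of the factors of `a` -/
  X : Finset (𝓞 K)
  /-- slot of the factors of `b` -/
  Y : Finset (𝓞 K)
  /-- slot of `c` -/
  C : Finset (𝓞 K)
  /-- probability on `X` -/
  px : 𝓞 K → ℝ
  /-- probability on `Y` -/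
  py : 𝓞 K → ℝ
  /-- probability on `C` -/
  pc : 𝓞 K → ℝ

variable {K}

/-- the conditions on the slots. -/
def Slots.Ok (S : Slots K) : Prop :=
  0 ∉ S.X ∧ 0 ∉ S.Y ∧ 0 ∉ S.C ∧ (∀ x, 0 ≤ S.px x) ∧ (∀ x, 0 ≤ S.py x) ∧ (∀ x, 0 ≤ S.pc x) ∧
    ∑ x ∈ S.X, S.px x = 1 ∧ ∑ x ∈ S.Y, S.py x = 1 ∧ ∑ x ∈ S.C, S.pc x = 1

/-- the slots. -/
def Slots.fin (S : Slots K) (N s : ℕ) : Ix N s → Finset (𝓞 K)
  | none => S.C
  | some (Sum.inl _) => S.X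
  | some (Sum.inr _) => S.Y

/-- the weights. -/
def Slots.wt (S : Slots K) (N s : ℕ) : Ix N s → 𝓞 K → ℝ
  | none => S.pc
  | some (Sum.inl _) => S.px
  | some (Sum.inr _) => S.py

/-- points of a slot. -/
abbrev Slots.Pt (S : Slots K) (N s : ℕ) (i : Ix N s) : Type := {x : 𝓞 K // x ∈ S.fin N s i}

/-- the probabilities. -/
def Slots.p (S : Slots K) (N s : ℕ) (i : Ix N s) (x : S.Pt N s i) : ℝ := S.wt N s i x.1

variable (K)

/-- the count theorem, as it is used for typical points; `N`, `s` depend on `r` only, the slots on the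
prime ideals dividing `M = A ϖ₁ ϖ₂ l` (and `H`, `D`) only; `W ≥ 0` is supported on solutions of
`A ε₁ a + l^e b = ε₂ c` with `A ε₁ a / (ε₂ c)` close to `σ₀` in `K_∞`. -/
def CountAbs : Prop :=
  ∀ r : ℕ, 1 ≤ r → ∃ N s : ℕ, ∀ (ϖ₁ ϖ₂ l : 𝓞 K) (ε : ℝ), PPow 1 ϖ₁ → PPow 1 ϖ₂ → PPow 0 l →
    IsCoprime ϖ₁ ϖ₂ → IsCoprime ϖ₁ l → IsCoprime ϖ₂ l → 0 < ε →
    ∃ S : 𝓞 K → ℕ → ℕ → Slots K,
      (∀ M M' : 𝓞 K, (∀ p : Ideal (𝓞 K), p.IsPrime → (M ∈ p ↔ M' ∈ p)) → S M = S M') ∧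
    ∀ (σ₀ : InfinitePlace K → ℂ) (ρ : ℝ) (e : ℕ), 0 < ρ → 1 ≤ e →
      (∀ v : InfinitePlace K, σ₀ v ≠ 0 ∧ σ₀ v ≠ 1 ∧ (v.IsReal → (σ₀ v).im = 0)) →
    ∃ w : ℕ, ∀ A : 𝓞 K, A ≠ 0 → IsCoprime A (ϖ₁ * ϖ₂ * l) →
      (∀ p : Ideal (𝓞 K), p.IsPrime → p ≠ ⊥ → Ideal.absNorm p ≤ w → A * (ϖ₁ * ϖ₂ * l) ∈ p) →
    ∃ H₀ : ℕ, ∀ H : ℕ, H₀ ≤ H → ∃ D₀ : ℕ, ∀ D : ℕ, D₀ ≤ D → ∀ S' : Slots K,
      S' = S (A * (ϖ₁ * ϖ₂ * l)) H D →
      S'.Ok ∧ ∃ W : (∀ i, S'.Pt N s i) → ℝ, (∀ x, 0 ≤ W x) ∧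
        (∀ x, W x ≠ 0 → ∃ ε₁ ε₂ : 𝓞 K, Absb ϖ₁ ε₁ ∧ Absb ϖ₂ ε₂ ∧
          A * ε₁ * (∏ i, (x (some (Sum.inl i))).1) + l ^ e * (∏ j, (x (some (Sum.inr j))).1) =
            ε₂ * (x none).1 ∧
          ∀ v, ‖emb ((A * ε₁ * ∏ i, (x (some (Sum.inl i))).1 : 𝓞 K) : K) v /
            emb ((ε₂ * (x none).1 : 𝓞 K) : K) v - σ₀ v‖ ≤ ρ) ∧
        ∀ U : Finset (Ix N s), U.card ≤ 2 * r →
          pav (S'.p N s) (fun x => |pce (S'.p N s) U W x - 1|) ≤ ε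

/-- PIECE `TypN` (helper77). -/
def TypN : Prop := RobustVec → PtsG → SecN K → CountAbs K → TPN K

end field

end Pool.Agent.T9h77.NF
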