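import Pool.Agent.T9h77.NF.TypE
import Pool.Agent.T9h77.QD.Rb3
import Pool.Agent.T9h84.NF.PtsG
import Pool.Agent.T9h84.NF.SpanPerN
import Pool.Agent.T9h67.NF.EndN
import Pool.Agent.T9h80.NF.Sec
import Pool.Agent.T9h73.NF.LIper
import Pool.Agent.T9h73.NF.Lcv

/-!
# Number fields: `SpanPerN` from the count theorem
-/

set_option autoImplicit false

namespace Pool.Agent.T9h77.NF

/-- everything except the count theorem. -/
theorem spanPerN_of_count (K : Type) [Field K] [NumberField K] (h : CountAbs K) : SpanPerN K :=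
  T9h84.NF.spanPerNOf K
    (T9h67.NF.endN K (typN K T9h77.QD.robustVec T9h84.NF.ptsG T9h80.NF.secN h))
    (T9h73.NF.lIperN K) T9h73.NF.lcvCont

end Pool.Agent.T9h77.NF
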