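import Pool.Agent.T9h77.NF.CntN
import Pool.Agent.T9h77.NF.Main

/-!
# Number fields: assembly of the pieces of the counting Spec
-/

set_option autoImplicit false

namespace Pool.Agent.T9h77.NF

open Pool.Agent.T9h11.NF

/-- `SpanPerN` from all the pieces. -/
theorem spanPerN_of_pieces (K : Type) [Field K] [NumberField K]
    (latK : LatK K) (abelK : AbelK K) (riemK : RiemK K) (lipX : LipX K) (platK : PlatK K)
    (bumpK : BumpK K) (phiK : PhiK K) (meanK : MeanK K) (roughTauK : RoughTauK K)
    (idCountK : IdCountK K) (unitFin : UnitFin K) (charK : CharK K) (lSd : LSd)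
    (lSieveKOf : LSieveKOf K) (divProdK : DivProdK K) (divXK : DivXK K) (equiXK : EquiXK K)
    (twistXK : TwistXK K) (cCountK : CCountK K) (cSumK : CSumK K)
    (sieveBdOfK : SieveBdOfK K) (nonCopOfK : NonCopOfK K) (coreSOfK : CoreSOfK K)
    (tileEx : TileEx K) (absEx : AbsEx K) (latLog : LatLog K) (absInt : AbsInt K)
    (circleOfK : CircleOfK K) (coreNOf : CoreNOf K) (slotEx : SlotEx K) : SpanPerN K := by
  have lSieveK : LSieveK K := lSieveKOf lSd latK
  have sieveBdK : SieveBdK K := sieveBdOfK latK lSieveK roughTauK idCountK unitFin charK divProdK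
    divXK twistXK
  have nonCopK : NonCopK K := nonCopOfK divXK idCountK
  have coreSK : CoreSK K := coreSOfK lipX platK latK divXK cSumK sieveBdK nonCopK cCountK equiXK
  have circleK : CircleK K := circleOfK latK abelK meanK riemK lipX divXK latLog
  have coreN : CoreN K := coreNOf latK phiK divXK cSumK latLog absInt circleK coreSK
  exact spanPerN_of_count K
    (countAbs K tileEx bumpK divXK cSumK slotEx absEx absInt coreN)

end Pool.Agent.T9h77.NF
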