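import Pool.Agent.T9h77.NF.TypD

/-!
# Flat marginals from the core estimate (number fields)
-/

set_option autoImplicit false
set_option linter.unusedSectionVars false

namespace Pool.Agent.T9h77.NF

open Finset NumberField H39Gon Pool.Agent.T9h42.GF Pool.Agent.T9h57.QD
open Pool.Agent.T9h71.GF (sum_pi exists_split)
open Pool.Agent.T9h77.QD (IsP pav_const pav_sub pav_mono abs_pav pce_tower pav_pce)
open scoped TensorProduct

section gen

variable {A : Type}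

/-- expectation of `f (x_1, ..., x_n)`, the `x_i ∈ S` independent with probability `p`. -/
noncomputable def exG (n : ℕ) (S : Finset A) (p : A → ℝ) (f : (Fin n → A) → ℝ) : ℝ :=
  ∑ x ∈ Fintype.piFinset (fun _ : Fin n => S), (∏ i, p (x i)) * f x

theorem exG_sum (n : ℕ) (S : Finset A) (p : A → ℝ) (f : (Fin n → A) → ℝ) :
    ∑ u : Fin n → {x // x ∈ S}, (∏ i, p (u i).1) * f (fun i => (u i).1) = exG n S p f := by
  classical
  unfold exG
  rw [sum_pi S n (fun x => (∏ i, p (x i)) * f x)]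

theorem exG_const {n : ℕ} {S : Finset A} {p : A → ℝ} (h : ∑ x ∈ S, p x = 1) (c : ℝ) :
    exG n S p (fun _ => c) = c := by
  classical
  unfold exG
  rw [← sum_mul, ← Finset.prod_univ_sum (fun _ : Fin n => S) (fun _ x => p x)]
  simp [h]

end gen

section blocks

variable {ι : Type} [Fintype ι] [DecidableEq ι] {Ω : ι → Type} [∀ i, Fintype (Ω i)]
variable {p : ∀ i, Ω i → ℝ} {Z1 Z2 : Type} [Fintype Z1] [Fintype Z2]

theorem pce_block (Φ : Z1 × Z2 ≃ ∀ i, Ω i) (ω1 : Z1 → ℝ) (ω2 : Z2 → ℝ)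
    (hw : ∀ a b, ∏ i, p i (Φ (a, b) i) = ω1 a * ω2 b) (h1 : ∑ a, ω1 a = 1)
    (T : Finset ι) (hΦ : ∀ a b a' b', mix T (Φ (a, b)) (Φ (a', b')) = Φ (a, b'))
    (f : (∀ i, Ω i) → ℝ) (a : Z1) (b : Z2) :
    pce p T f (Φ (a, b)) = ∑ b', ω2 b' * f (Φ (a, b')) := by
  unfold pce pav
  rw [← Φ.sum_comp, Fintype.sum_prod_type]
  simp only [hΦ, hw]
  rw [sum_comm]
  refine sum_congr rfl fun b' _ => ?_
  rw [← sum_mul, ← sum_mul, h1, one_mul]

theorem pav_block (Φ : Z1 × Z2 ≃ ∀ i, Ω i) (ω1 : Z1 → ℝ) (ω2 : Z2 → ℝ)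
    (hw : ∀ a b, ∏ i, p i (Φ (a, b) i) = ω1 a * ω2 b) (h2 : ∑ b, ω2 b = 1)
    (f : (∀ i, Ω i) → ℝ) (g : Z1 → ℝ) (hf : ∀ a b, f (Φ (a, b)) = g a) :
    pav p f = ∑ a, ω1 a * g a := by
  unfold pav
  rw [← Φ.sum_comp, Fintype.sum_prod_type]
  simp only [hf, hw]
  refine sum_congr rfl fun a _ => ?_
  rw [← sum_mul, ← mul_sum, h2, mul_one]

theorem pav_abs_mono (hp : IsP p) {T S : Finset ι} (h : T ⊆ S) (f : (∀ i, Ω i) → ℝ) :
    pav p (fun x => |pce p T f x - 1|) ≤ pav p (fun x => |pce p S f x - 1|) := by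
  rw [← pav_pce hp T (fun x => |pce p S f x - 1|)]
  refine pav_mono hp fun x => ?_
  have h1 : pce p T f x - 1 = pav p (fun y => pce p S f (mix T x y) - 1) := by
    rw [pav_sub, pav_const hp]
    congr 1
    exact (congrFun (pce_tower hp h f) x).symm
  rw [h1]
  exact abs_pav hp _

end blocks

section slots

variable {K : Type} [Field K] [NumberField K] (S : Slots K) {N s a b n n' : ℕ}

/-- the fixed slots. -/
abbrev Zf (a b : ℕ) : Type :=
  {x // x ∈ S.C} × (Fin a → {x // x ∈ S.X}) × (Fin b → {x // x ∈ S.Y})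

/-- the free slots. -/
abbrev Zg (n n' : ℕ) : Type := (Fin n → {x // x ∈ S.X}) × (Fin n' → {x // x ∈ S.Y})

/-- from blocks to assignments. -/
def Dz (e1 : Fin N ≃ Fin a ⊕ Fin n) (e2 : Fin s ≃ Fin b ⊕ Fin n') :
    Zf S a b × Zg S n n' → ∀ i, S.Pt N s i
  | z, none => z.1.1
  | z, some (Sum.inl i) => Sum.elim z.1.2.1 z.2.1 (e1 i)
  | z, some (Sum.inr j) => Sum.elim z.1.2.2 z.2.2 (e2 j)

/-- from assignments to blocks. -/
def Ez (e1 : Fin N ≃ Fin a ⊕ Fin n) (e2 : Fin s ≃ Fin b ⊕ Fin n')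
    (x : ∀ i, S.Pt N s i) : Zf S a b × Zg S n n' :=
  ((x none, fun l => x (some (Sum.inl (e1.symm (Sum.inl l)))),
    fun l => x (some (Sum.inr (e2.symm (Sum.inl l))))),
    (fun l => x (some (Sum.inl (e1.symm (Sum.inr l)))),
      fun l => x (some (Sum.inr (e2.symm (Sum.inr l))))))

/-- the equivalence. -/
def Pz (e1 : Fin N ≃ Fin a ⊕ Fin n) (e2 : Fin s ≃ Fin b ⊕ Fin n') :
    Zf S a b × Zg S n n' ≃ ∀ i, S.Pt N s i where
  toFun := Dz S e1 e2
  invFun := Ez S e1 e2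
  left_inv z := by
    obtain ⟨⟨c, u, t⟩, v, y⟩ := z
    refine Prod.ext (Prod.ext rfl (Prod.ext ?_ ?_)) (Prod.ext ?_ ?_)
    · funext l
      show Sum.elim u v (e1 (e1.symm (Sum.inl l))) = u l
      rw [Equiv.apply_symm_apply]; rfl
    · funext l
      show Sum.elim t y (e2 (e2.symm (Sum.inl l))) = t l
      rw [Equiv.apply_symm_apply]; rfl
    · funext l
      show Sum.elim u v (e1 (e1.symm (Sum.inr l))) = v l
      rw [Equiv.apply_symm_apply]; rfl
    · funext l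
      show Sum.elim t y (e2 (e2.symm (Sum.inr l))) = y l
      rw [Equiv.apply_symm_apply]; rfl
  right_inv x := by
    funext i
    rcases i with _ | i | j
    · rfl
    · show Sum.elim (fun l => x (some (Sum.inl (e1.symm (Sum.inl l)))))
        (fun l => x (some (Sum.inl (e1.symm (Sum.inr l))))) (e1 i) = x (some (Sum.inl i))
      rcases h : e1 i with l | l
      · have : i = e1.symm (Sum.inl l) := by rw [← h, Equiv.symm_apply_apply]
        subst this; rfl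
      · have : i = e1.symm (Sum.inr l) := by rw [← h, Equiv.symm_apply_apply]
        subst this; rfl
    · show Sum.elim (fun l => x (some (Sum.inr (e2.symm (Sum.inl l)))))
        (fun l => x (some (Sum.inr (e2.symm (Sum.inr l))))) (e2 j) = x (some (Sum.inr j))
      rcases h : e2 j with l | l
      · have : j = e2.symm (Sum.inl l) := by rw [← h, Equiv.symm_apply_apply]
        subst this; rfl
      · have : j = e2.symm (Sum.inr l) := by rw [← h, Equiv.symm_apply_apply]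
        subst this; rfl

theorem mix_Pz (e1 : Fin N ≃ Fin a ⊕ Fin n) (e2 : Fin s ≃ Fin b ⊕ Fin n') (T : Finset (Ix N s))
    (h0 : none ∈ T) (h1 : ∀ i, some (Sum.inl i) ∈ T ↔ ∃ l, e1 i = Sum.inl l)
    (h2 : ∀ j, some (Sum.inr j) ∈ T ↔ ∃ l, e2 j = Sum.inl l)
    (z : Zf S a b) (y : Zg S n n') (z' : Zf S a b) (y' : Zg S n n') :
    mix T (Pz S e1 e2 (z, y)) (Pz S e1 e2 (z', y')) = Pz S e1 e2 (z, y') := by
  funext i
  unfold mix
  rcases i with _ | i | j
  · rw [if_pos h0]; rfl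
  · show (if _ then Sum.elim z.2.1 y.1 (e1 i) else Sum.elim z'.2.1 y'.1 (e1 i)) =
      Sum.elim z.2.1 y'.1 (e1 i)
    have h3 := h1 i
    rcases h : e1 i with l | l
    · rw [if_pos (h3.2 ⟨l, h⟩)]; rfl
    · rw [if_neg (fun h4 => by obtain ⟨l', h5⟩ := h3.1 h4; rw [h] at h5; cases h5)]; rfl
  · show (if _ then Sum.elim z.2.2 y.2 (e2 j) else
      Sum.elim z'.2.2 y'.2 (e2 j)) = Sum.elim z.2.2 y'.2 (e2 j)
    have h3 := h2 j
    rcases h : e2 j with l | l
    · rw [if_pos (h3.2 ⟨l, h⟩)]; rfl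
    · rw [if_neg (fun h4 => by obtain ⟨l', h5⟩ := h3.1 h4; rw [h] at h5; cases h5)]; rfl

/-- weights of the fixed slots. -/
noncomputable def wf (z : Zf S a b) : ℝ :=
  S.pc z.1.1 * ((∏ i, S.px (z.2.1 i).1) * ∏ i, S.py (z.2.2 i).1)

/-- weights of the free slots. -/
noncomputable def wg (z : Zg S n n') : ℝ := (∏ i, S.px (z.1 i).1) * ∏ i, S.py (z.2 i).1

theorem wt_Pz (e1 : Fin N ≃ Fin a ⊕ Fin n) (e2 : Fin s ≃ Fin b ⊕ Fin n')
    (z : Zf S a b) (y : Zg S n n') :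
    ∏ i, S.p N s i (Pz S e1 e2 (z, y) i) = wf S z * wg S y := by
  rw [Fintype.prod_option, Fintype.prod_sum_type]
  have h0 : S.p N s none (Pz S e1 e2 (z, y) none) = S.pc z.1.1 := rfl
  have h1 : ∏ i, S.p N s (some (Sum.inl i)) (Pz S e1 e2 (z, y) (some (Sum.inl i))) =
      (∏ i, S.px (z.2.1 i).1) * ∏ i, S.px (y.1 i).1 := by
    have h3 : ∀ i, S.p N s (some (Sum.inl i)) (Pz S e1 e2 (z, y) (some (Sum.inl i))) =
        S.px (Sum.elim z.2.1 y.1 (e1 i)).1 := fun i => rfl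
    simp only [h3]
    rw [e1.prod_comp (fun l => S.px (Sum.elim z.2.1 y.1 l).1), Fintype.prod_sum_type]
    rfl
  have h2 : ∏ i, S.p N s (some (Sum.inr i)) (Pz S e1 e2 (z, y) (some (Sum.inr i))) =
      (∏ i, S.py (z.2.2 i).1) * ∏ i, S.py (y.2 i).1 := by
    have h3 : ∀ i, S.p N s (some (Sum.inr i)) (Pz S e1 e2 (z, y) (some (Sum.inr i))) =
        S.py (Sum.elim z.2.2 y.2 (e2 i)).1 := fun i => rfl
    simp only [h3]
    rw [e2.prod_comp (fun l => S.py (Sum.elim z.2.2 y.2 l).1), Fintype.prod_sum_type]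
    rfl
  rw [h0, h1, h2, wf, wg]
  ring

/-- the weight on the product space, from a function of the products. -/
def WzN (N s : ℕ) (w : 𝓞 K → 𝓞 K → 𝓞 K → ℝ) (x : ∀ i, S.Pt N s i) : ℝ :=
  w (∏ i, (x (some (Sum.inl i))).1) (∏ j, (x (some (Sum.inr j))).1) (x none).1

theorem Wz_Pz (w : 𝓞 K → 𝓞 K → 𝓞 K → ℝ) (e1 : Fin N ≃ Fin a ⊕ Fin n)
    (e2 : Fin s ≃ Fin b ⊕ Fin n') (z : Zf S a b) (y : Zg S n n') :
    WzN S N s w (Pz S e1 e2 (z, y)) = w ((∏ i, (z.2.1 i).1) * ∏ i, (y.1 i).1)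
        ((∏ i, (z.2.2 i).1) * ∏ i, (y.2 i).1) z.1.1 := by
  have p1 : ∏ i, (Pz S e1 e2 (z, y) (some (Sum.inl i))).1 =
      (∏ i, (z.2.1 i).1) * ∏ i, (y.1 i).1 := by
    show ∏ i, (Sum.elim z.2.1 y.1 (e1 i)).1 = _
    rw [e1.prod_comp (fun l => (Sum.elim z.2.1 y.1 l).1), Fintype.prod_sum_type]
    rfl
  have p2 : ∏ j, (Pz S e1 e2 (z, y) (some (Sum.inr j))).1 =
      (∏ i, (z.2.2 i).1) * ∏ i, (y.2 i).1 := by
    show ∏ j, (Sum.elim z.2.2 y.2 (e2 j)).1 = _
    rw [e2.prod_comp (fun l => (Sum.elim z.2.2 y.2 l).1), Fintype.prod_sum_type]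
    rfl
  unfold WzN
  rw [p1, p2]
  rfl

theorem sum_wg (f : (Fin n → 𝓞 K) → (Fin n' → 𝓞 K) → ℝ) :
    ∑ y : Zg S n n', wg S y * f (fun i => (y.1 i).1) (fun i => (y.2 i).1) =
      exG n S.X S.px (fun v => exG n' S.Y S.py (fun y => f v y)) := by
  rw [Fintype.sum_prod_type, ← exG_sum]
  refine sum_congr rfl fun v _ => ?_
  rw [← exG_sum, mul_sum]
  refine sum_congr rfl fun y _ => ?_
  unfold wg
  ring

theorem sum_wf (f : (Fin a → 𝓞 K) → (Fin b → 𝓞 K) → 𝓞 K → ℝ) :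
    ∑ z : Zf S a b, wf S z * f (fun i => (z.2.1 i).1) (fun i => (z.2.2 i).1) z.1.1 =
      exG a S.X S.px (fun u => exG b S.Y S.py (fun t => ∑ c ∈ S.C, S.pc c * f u t c)) := by
  rw [Fintype.sum_prod_type, sum_comm, Fintype.sum_prod_type, ← exG_sum]
  refine sum_congr rfl fun u _ => ?_
  rw [← exG_sum, mul_sum]
  refine sum_congr rfl fun t _ => ?_
  rw [← sum_coe_sort S.C, mul_sum, mul_sum]
  refine sum_congr rfl fun c _ => ?_
  unfold wf
  ring

/-- flat marginals from the core estimate. -/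
theorem flat_of_core (hOk : S.Ok) {r : ℕ} (hN : 2 * r ≤ N) (hs : s = 2 * r + 1)
    (w : 𝓞 K → 𝓞 K → 𝓞 K → ℝ) {ε : ℝ}
    (hcore : exG (2 * r) S.X S.px (fun u => exG (2 * r) S.Y S.py (fun t => ∑ c ∈ S.C, S.pc c *
      |exG (N - 2 * r) S.X S.px (fun v => exG 1 S.Y S.py (fun y =>
        w ((∏ i, u i) * ∏ i, v i) ((∏ i, t i) * ∏ i, y i) c)) - 1|)) ≤ ε)
    (U : Finset (Ix N s)) (hU : U.card ≤ 2 * r) :
    pav (S.p N s) (fun x => |pce (S.p N s) U (WzN S N s w) x - 1|) ≤ ε := by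
  classical
  have hIsP : IsP (S.p N s) := isP_S hOk N s
  obtain ⟨-, -, -, -, -, -, hX1, hY1, hC1⟩ := hOk
  set P : Finset (Fin N) := univ.filter (fun i => some (Sum.inl i) ∈ U) with hP
  set Q : Finset (Fin s) := univ.filter (fun i => some (Sum.inr i) ∈ U) with hQ
  have hPc : P.card ≤ 2 * r := by
    have h1 : (P.image (fun i => (some (Sum.inl i) : Ix N s))) ⊆ U := by
      intro x hx
      obtain ⟨i, hi, rfl⟩ := Finset.mem_image.1 hx
      exact (Finset.mem_filter.1 hi).2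
    have h2 := (Finset.card_le_card h1).trans hU
    rwa [Finset.card_image_of_injective _ (fun x y h => by simpa using h)] at h2
  have hQc : Q.card ≤ 2 * r := by
    have h1 : (Q.image (fun i => (some (Sum.inr i) : Ix N s))) ⊆ U := by
      intro x hx
      obtain ⟨i, hi, rfl⟩ := Finset.mem_image.1 hx
      exact (Finset.mem_filter.1 hi).2
    have h2 := (Finset.card_le_card h1).trans hU
    rwa [Finset.card_image_of_injective _ (fun x y h => by simpa using h)] at h2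
  obtain ⟨P', hP1, _, hP2⟩ := Finset.exists_subsuperset_card_eq (Finset.subset_univ P) hPc (by
    rw [Finset.card_univ, Fintype.card_fin]; exact hN)
  obtain ⟨Q', hQ1, _, hQ2⟩ := Finset.exists_subsuperset_card_eq (Finset.subset_univ Q) hQc (by
    rw [Finset.card_univ, Fintype.card_fin]; omega)
  obtain ⟨e1, he1⟩ := exists_split P' (a := 2 * r) (b := N - 2 * r) hP2 (by
    rw [Fintype.card_fin]; omega)
  obtain ⟨e2, he2⟩ := exists_split Q' (a := 2 * r) (b := 1) hQ2 (by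
    rw [Fintype.card_fin, hs])
  set V : Finset (Ix N s) := {none} ∪ (P'.image (fun i => (some (Sum.inl i) : Ix N s))) ∪
    (Q'.image (fun i => (some (Sum.inr i) : Ix N s))) with hV
  have hUV : U ⊆ V := by
    intro x hx
    rw [hV]
    rcases x with _ | i | i
    · simp
    · simp only [Finset.mem_union, Finset.mem_image]
      exact Or.inl (Or.inr ⟨i, hP1 (Finset.mem_filter.2 ⟨Finset.mem_univ _, hx⟩), rfl⟩)
    · simp only [Finset.mem_union, Finset.mem_image]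
      exact Or.inr ⟨i, hQ1 (Finset.mem_filter.2 ⟨Finset.mem_univ _, hx⟩), rfl⟩
  have t0 : none ∈ V := by rw [hV]; simp
  have t1 : ∀ i, some (Sum.inl i) ∈ V ↔ ∃ l, e1 i = Sum.inl l := by
    intro i
    rw [← he1 i, hV]
    simp
  have t2 : ∀ i, some (Sum.inr i) ∈ V ↔ ∃ l, e2 i = Sum.inl l := by
    intro i
    rw [← he2 i, hV]
    simp
  refine (pav_abs_mono hIsP hUV _).trans ?_
  have hwf : ∑ z : Zf S (2 * r) (2 * r), wf S z = 1 := by
    have h1 := sum_wf S (a := 2 * r) (b := 2 * r) (fun _ _ _ => 1)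
    simp only [mul_one] at h1
    rw [h1, hC1]
    rw [exG_const hY1, exG_const hX1]
  have hwg : ∑ y : Zg S (N - 2 * r) 1, wg S y = 1 := by
    have h1 := sum_wg S (n := N - 2 * r) (n' := 1) (fun _ _ => 1)
    simp only [mul_one] at h1
    rw [h1, exG_const hY1, exG_const hX1]
  rw [pav_block (Pz S e1 e2) (wf S) (wg S) (fun z y => wt_Pz S e1 e2 z y) hwg
    (fun x => |pce (S.p N s) V (WzN S N s w) x - 1|)
    (fun z => |exG (N - 2 * r) S.X S.px (fun v => exG 1 S.Y S.py (fun y =>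
      w ((∏ i, (z.2.1 i).1) * ∏ i, v i) ((∏ i, (z.2.2 i).1) * ∏ i, y i) z.1.1)) - 1|) (by
    intro z y
    rw [pce_block (Pz S e1 e2) (wf S) (wg S) (fun z y => wt_Pz S e1 e2 z y) hwf V
      (fun z y z' y' => mix_Pz S e1 e2 V t0 t1 t2 z y z' y')]
    simp only [Wz_Pz]
    rw [sum_wg S (fun v y => w ((∏ i, (z.2.1 i).1) * ∏ i, v i)
        ((∏ i, (z.2.2 i).1) * ∏ i, y i) z.1.1)])]
  rw [sum_wf S (fun u t c => |exG (N - 2 * r) S.X S.px (fun v => exG 1 S.Y S.py (fun y =>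
      w ((∏ i, u i) * ∏ i, v i) ((∏ i, t i) * ∏ i, y i) c)) - 1|)]
  exact hcore

end slots

end Pool.Agent.T9h77.NF
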