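import Pool.Agent.T9h77.NF.Cnt
import Pool.Agent.T9h11.NF.Spec2

/-!
# Number fields: the count theorem from the core estimate
-/

set_option autoImplicit false
set_option linter.unusedSectionVars false

namespace Pool.Agent.T9h77.NF

open Finset NumberField H39Gon Pool.Agent.T9h42.GF Pool.Agent.T9h57.QD
open Pool.Agent.T9h11.NF (Sp E nrm RF Adm cop IsSlot wl wu pr exk Tile Wn SmallDvd TileEx BumpK
  DivXK CSumK SlotEx AbsEx AbsInt CoreN)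

section field

variable {K : Type} [Field K] [NumberField K]

/-- a chosen slot. -/
noncomputable def slF (P : Finset (𝓞 K) → Prop) : Finset (𝓞 K) := by
  classical exact if h : ∃ S, P S then h.choose else ∅

theorem slF_spec {P : Finset (𝓞 K) → Prop} (h : ∃ S, P S) : P (slF P) := by
  classical
  unfold slF
  rw [dif_pos h]
  exact h.choose_spec

theorem cop_iff (x : 𝓞 K) (I : Ideal (𝓞 K)) :
    cop x I ↔ ∀ p : Ideal (𝓞 K), p.IsPrime → ¬ (x ∈ p ∧ I ≤ p) := by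
  unfold cop
  rw [Ideal.isCoprime_iff_sup_eq]
  constructor
  · rintro h p hp ⟨h1, h2⟩
    apply hp.ne_top
    rw [eq_top_iff, ← h]
    exact sup_le ((Ideal.span_singleton_le_iff_mem _).2 h1) h2
  · intro h
    by_contra h1
    obtain ⟨m, hm, hm2⟩ := Ideal.exists_le_maximal _ h1
    exact h m hm.isPrime ⟨(Ideal.span_singleton_le_iff_mem _).1 (le_sup_left.trans hm2),
      le_sup_right.trans hm2⟩

theorem isSlot_congr (ρ : Sp K → ℝ) {M M' : 𝓞 K}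
    (h : ∀ p : Ideal (𝓞 K), p.IsPrime → (M ∈ p ↔ M' ∈ p)) (D : ℝ) :
    IsSlot ρ (Ideal.span {M}) D = IsSlot ρ (Ideal.span {M'}) D := by
  funext S
  unfold IsSlot
  apply propext
  refine forall_congr' fun x => ?_
  have h1 : cop x (Ideal.span {M}) ↔ cop x (Ideal.span {M'}) := by
    rw [cop_iff, cop_iff]
    refine forall_congr' fun p => forall_congr' fun hp => ?_
    rw [Ideal.span_singleton_le_iff_mem, Ideal.span_singleton_le_iff_mem, h p hp]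
  rw [h1]

theorem ppow_ne_zero {j : ℕ} {x : 𝓞 K} (h : PPow j x) : x ≠ 0 := by
  rintro rfl
  obtain ⟨p, hp, hp0, i, -, h1⟩ := h
  rw [Ideal.span_singleton_eq_bot.2 rfl] at h1
  exact pow_ne_zero i hp0 h1.symm

theorem ppow_not_unit {x : 𝓞 K} (h : PPow 1 x) : ¬ IsUnit x := by
  intro hu
  obtain ⟨p, hp, hp0, i, hi, h1⟩ := h
  rw [Ideal.span_singleton_eq_top.2 hu] at h1
  apply hp.ne_top
  rw [eq_top_iff, h1]
  exact Ideal.pow_le_self (by omega)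

theorem nrm_nonneg (z : Sp K) : 0 ≤ nrm z := by
  unfold nrm
  exact Finset.prod_nonneg fun v _ => pow_nonneg (norm_nonneg _) _

theorem wl_nonneg {ρ : Sp K → ℝ} (h : Adm ρ) (D : ℝ) (x : 𝓞 K) : 0 ≤ wl ρ D x :=
  div_nonneg (h.1 _).1 (nrm_nonneg _)

theorem wu_nonneg {ρ : Sp K → ℝ} (h : Adm ρ) (D : ℝ) (x : 𝓞 K) : 0 ≤ wu ρ D x := (h.1 _).1

theorem pr_nonneg {f : 𝓞 K → ℝ} (h : ∀ x, 0 ≤ f x) (S : Finset (𝓞 K)) (x : 𝓞 K) :
    0 ≤ pr f S x := div_nonneg (h x) (Finset.sum_nonneg fun y _ => h y)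

theorem pr_sum {f : 𝓞 K → ℝ} {S : Finset (𝓞 K)} (h : 0 < ∑ x ∈ S, f x) :
    ∑ x ∈ S, pr f S x = 1 := by
  unfold pr
  rw [← Finset.sum_div]
  exact div_self h.ne'

theorem zero_notMem {ρ : Sp K → ℝ} (h : Adm ρ) {M : Ideal (𝓞 K)} {D : ℝ} {S : Finset (𝓞 K)}
    (hS : IsSlot ρ M D S) : (0 : 𝓞 K) ∉ S := by
  intro h0
  obtain ⟨-, h1⟩ := (hS 0).1 h0
  obtain ⟨-, -, ⟨c₁, c₂, hc, h2⟩, -⟩ := h
  obtain ⟨v⟩ : Nonempty (InfinitePlace K) := inferInstance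
  have h3 := (h2 _ h1 v).1
  simp at h3
  linarith

/-- an integral element with exponents `k` is in the absorber set. -/
theorem absb_of_span {ϖ g : 𝓞 K} {m : ℕ} (h : Ideal.span {g} = Ideal.span {ϖ} ^ m) :
    Absb ϖ g := by
  rw [Ideal.span_singleton_pow, Ideal.span_singleton_eq_span_singleton] at h
  obtain ⟨u, hu⟩ := h.symm
  exact ⟨u, m, by rw [← hu, mul_comm]⟩

end field

theorem countAbs (K : Type) [Field K] [NumberField K] (hT : TileEx K) (hB : BumpK K)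
    (hDiv : DivXK K) (hCS : CSumK K) (hS : SlotEx K) (hA : AbsEx K) (hI : AbsInt K)
    (hCore : CoreN K) : CountAbs K := by
  classical
  intro r hr
  refine ⟨(2 * r + 1) ^ 2, 2 * r + 1, fun ϖ₁ ϖ₂ l ε p1 p2 pl c12 c1l c2l hε => ?_⟩
  obtain ⟨a, ha⟩ := hA ϖ₁ (ppow_ne_zero p1) (ppow_not_unit p1)
  obtain ⟨a', ha'⟩ := hA ϖ₂ (ppow_ne_zero p2) (ppow_not_unit p2)
  obtain ⟨ρ₁, t1⟩ := hT a
  obtain ⟨ρ₂, t2⟩ := hT a'
  obtain ⟨ρ₃, t3, -⟩ := hB (1 : Sp K) 1 ⟨fun v => by simp, fun v _ => by simp⟩ one_pos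
  have ad1 : Adm ρ₁ := t1.1
  have ad2 : Adm ρ₂ := t2.1
  refine ⟨fun M H D =>
    { X := slF (IsSlot ρ₁ (Ideal.span {M}) D)
      Y := slF (IsSlot ρ₂ (Ideal.span {M}) ((H : ℝ) * (D : ℝ) ^ (2 * r + 1)))
      C := slF (IsSlot ρ₃ (Ideal.span {M}) ((D : ℝ) ^ (2 * r + 1) ^ 2))
      px := pr (wl ρ₁ D) (slF (IsSlot ρ₁ (Ideal.span {M}) D))
      py := pr (wl ρ₂ ((H : ℝ) * (D : ℝ) ^ (2 * r + 1)))
        (slF (IsSlot ρ₂ (Ideal.span {M}) ((H : ℝ) * (D : ℝ) ^ (2 * r + 1))))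
      pc := pr (wu ρ₃ ((D : ℝ) ^ (2 * r + 1) ^ 2))
        (slF (IsSlot ρ₃ (Ideal.span {M}) ((D : ℝ) ^ (2 * r + 1) ^ 2))) }, ?_, ?_⟩
  · intro M M' h
    funext H D
    simp only [isSlot_congr _ h]
  intro σ₀ ρ e hρ he hσ
  have l0 : l ≠ 0 := ppow_ne_zero pl
  have cle : IsCoprime (l ^ e) (ϖ₁ * ϖ₂) := (c1l.mul_left c2l).symm.pow_left
  obtain ⟨θ, hθ, h1⟩ := hCore a a' ρ₁ ρ₂ ρ₃ r ε σ₀ t1 t2 t3
    (by rw [ha, ha']; exact Ideal.isCoprime_span_singleton_iff _ _ |>.2 c12) hr hε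
    ⟨fun v => (hσ v).1, fun v hv => (hσ v).2.2 hv⟩
    ⟨fun v => sub_ne_zero.2 (Ne.symm (hσ v).2.1), fun v hv => by
      simp [Pi.sub_apply, (hσ v).2.2 hv]⟩
  obtain ⟨Ψ, hΨ, hΨ'⟩ := hB σ₀ (min θ ρ) ⟨fun v => (hσ v).1, fun v hv => (hσ v).2.2 hv⟩
    (lt_min hθ hρ)
  obtain ⟨w, hw⟩ := h1 Ψ (l ^ e) hΨ (fun z hz => (hΨ' z hz).trans (min_le_left _ _))
    (pow_ne_zero _ l0) (by
      rw [ha, ha']; exact Ideal.isCoprime_span_singleton_iff _ _ |>.2 cle)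
  refine ⟨w, fun A hA0 hAc hAp => ?_⟩
  rw [ha, ha'] at hw
  have hmem : ∀ p : Ideal (𝓞 K), p.IsPrime →
      (A * (ϖ₁ * ϖ₂ * l) ∈ p ↔ A * (l ^ e * (ϖ₁ * ϖ₂)) ∈ p) := by
    intro p hp
    simp only [hp.mul_mem_iff_mem_or_mem, hp.pow_mem_iff_mem e (by omega)]
    tauto
  obtain ⟨H₀, hH₀, h2⟩ := hw A hA0 (by
      refine (Ideal.isCoprime_span_singleton_iff _ _).2 ?_
      have h3 : IsCoprime A l := hAc.of_mul_right_right
      have h4 : IsCoprime A (ϖ₁ * ϖ₂) := hAc.of_mul_right_left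
      exact h3.pow_right.mul_right h4) (by
      intro p hp hp0 hpw
      rw [Ideal.dvd_span_singleton, ← hmem p hp]
      exact hAp p hp hp0 hpw)
  refine ⟨⌈H₀⌉₊, fun H hH => ?_⟩
  have hHH : H₀ ≤ (H : ℝ) := Nat.ceil_le.1 hH
  have hH1 : (1 : ℝ) ≤ H := hH₀.trans hHH
  obtain ⟨Λ, Λ', D₀, hΛ, hΛ', hD₀, h3⟩ := h2 H hHH
  have hM0 : Ideal.span {A * (l ^ e * (ϖ₁ * ϖ₂))} ≠ ⊥ := by
    rw [Ne, Ideal.span_singleton_eq_bot]
    exact mul_ne_zero hA0 (mul_ne_zero (pow_ne_zero _ l0)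
      (mul_ne_zero (ppow_ne_zero p1) (ppow_ne_zero p2)))
  obtain ⟨C1, D1, hC1, hD1, k1⟩ := hDiv ρ₁ _ ad1 hM0
  obtain ⟨C2, D2, hC2, hD2, k2⟩ := hDiv ρ₂ _ ad2 hM0
  obtain ⟨C3, D3, hC3, hD3, k3⟩ := hCS ρ₃ _ t3 hM0
  refine ⟨⌈max (max D₀ D1) (max D2 D3)⌉₊, fun D hD S' hS' => ?_⟩
  have hDD : max (max D₀ D1) (max D2 D3) ≤ (D : ℝ) := Nat.ceil_le.1 hD
  have e0 : D₀ ≤ (D : ℝ) := (le_max_left _ _).trans ((le_max_left _ _).trans hDD)
  have e1 : D1 ≤ (D : ℝ) := (le_max_right _ _).trans ((le_max_left _ _).trans hDD)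
  have e2 : D2 ≤ (D : ℝ) := (le_max_left _ _).trans ((le_max_right _ _).trans hDD)
  have e3 : D3 ≤ (D : ℝ) := (le_max_right _ _).trans ((le_max_right _ _).trans hDD)
  have d1 : (1 : ℝ) ≤ D := hD₀.trans e0
  have d0 : (0 : ℝ) < D := lt_of_lt_of_le one_pos d1
  have e2' : D2 ≤ (H : ℝ) * (D : ℝ) ^ (2 * r + 1) := by
    have h5 : (D : ℝ) ≤ (D : ℝ) ^ (2 * r + 1) := le_self_pow₀ d1 (by omega)
    have h6 : (D : ℝ) ^ (2 * r + 1) ≤ (H : ℝ) * (D : ℝ) ^ (2 * r + 1) :=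
      le_mul_of_one_le_left (by positivity) hH1
    linarith
  have e3' : D3 ≤ (D : ℝ) ^ (2 * r + 1) ^ 2 := by
    have h5 : (D : ℝ) ≤ (D : ℝ) ^ (2 * r + 1) ^ 2 := le_self_pow₀ d1 (by positivity)
    linarith
  have sX : IsSlot ρ₁ (Ideal.span {A * (l ^ e * (ϖ₁ * ϖ₂))}) D S'.X := by
    rw [hS', ← isSlot_congr _ hmem]
    exact slF_spec (hS _ _ _ ad1 d0)
  have sY : IsSlot ρ₂ (Ideal.span {A * (l ^ e * (ϖ₁ * ϖ₂))})
      ((H : ℝ) * (D : ℝ) ^ (2 * r + 1)) S'.Y := by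
    rw [hS', ← isSlot_congr _ hmem]
    exact slF_spec (hS _ _ _ ad2 (by positivity))
  have sC : IsSlot ρ₃ (Ideal.span {A * (l ^ e * (ϖ₁ * ϖ₂))})
      ((D : ℝ) ^ (2 * r + 1) ^ 2) S'.C := by
    rw [hS', ← isSlot_congr _ hmem]
    exact slF_spec (hS _ _ _ t3 (by positivity))
  have qx : S'.px = pr (wl ρ₁ D) S'.X := by rw [hS']
  have qy : S'.py = pr (wl ρ₂ ((H : ℝ) * (D : ℝ) ^ (2 * r + 1))) S'.Y := by rw [hS']
  have qc : S'.pc = pr (wu ρ₃ ((D : ℝ) ^ (2 * r + 1) ^ 2)) S'.C := by rw [hS']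
  have hOk : S'.Ok := by
    refine ⟨zero_notMem ad1 sX, zero_notMem ad2 sY, zero_notMem t3 sC, ?_, ?_, ?_, ?_, ?_, ?_⟩
    · rw [qx]; exact pr_nonneg (wl_nonneg ad1 _) _
    · rw [qy]; exact pr_nonneg (wl_nonneg ad2 _) _
    · rw [qc]; exact pr_nonneg (wu_nonneg t3 _) _
    · rw [qx]; exact pr_sum (lt_of_lt_of_le (by positivity) (k1 D e1 _ sX).2.1)
    · rw [qy]; exact pr_sum (lt_of_lt_of_le (by positivity) (k2 _ e2' _ sY).2.1)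
    · rw [qc]; exact pr_sum (lt_of_lt_of_le (by positivity) (k3 _ e3' _ sC).2.1)
  obtain ⟨κ, hκ, hcore⟩ := h3 D e0 S'.X S'.Y S'.C sX sY sC
  refine ⟨hOk, WzN S' ((2 * r + 1) ^ 2) (2 * r + 1) (Wn a a' Λ Λ' Ψ A (l ^ e) κ), ?_, ?_, ?_⟩
  · intro x
    unfold WzN Wn
    refine mul_nonneg (mul_nonneg hκ.le (nrm_nonneg _)) (Finset.sum_nonneg fun k _ =>
      Finset.sum_nonneg fun k' _ => mul_nonneg ?_ (hΨ.1 _).1)
    unfold ind
    split_ifs <;> norm_num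
  · intro x hx
    unfold WzN Wn at hx
    have hx2 := right_ne_zero_of_mul hx
    obtain ⟨k, hk, hx3⟩ := Finset.exists_ne_zero_of_sum_ne_zero hx2
    obtain ⟨k', hk', hx4⟩ := Finset.exists_ne_zero_of_sum_ne_zero hx3
    have g1 := left_ne_zero_of_mul hx4
    have g2 := right_ne_zero_of_mul hx4
    have g3 : (A : K) * a.el k * ((∏ i, (x (some (Sum.inl i))).1 : 𝓞 K) : K) +
        ((l ^ e : 𝓞 K) : K) * ((∏ j, (x (some (Sum.inr j))).1 : 𝓞 K) : K) =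
          a'.el k' * ((x none).1 : K) := by
      by_contra h5
      apply g1
      unfold ind
      exact if_neg h5
    obtain ⟨ε₁, hε₁, hs₁⟩ := ((hI a).2.2 k).2.2 (by have := hΛ k hk; omega)
    obtain ⟨ε₂, hε₂, hs₂⟩ := ((hI a').2.2 k').2.2 (by have := hΛ' k' hk'; omega)
    rw [ha] at hs₁
    rw [ha'] at hs₂
    refine ⟨ε₁, ε₂, absb_of_span hs₁, absb_of_span hs₂, ?_, ?_⟩
    · apply RingOfIntegers.ext
      rw [← hε₁, ← hε₂] at g3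
      simpa only [map_add, map_mul, map_prod, map_pow] using g3
    · intro v
      have g4 := (hΨ' _ g2).trans (min_le_right _ _)
      refine le_trans (le_of_eq ?_) ((norm_le_pi_norm _ v).trans g4)
      rw [← hε₁, ← hε₂]
      have hE : ∀ x : K, (E x : Sp K) v = v.embedding x := fun _ => rfl
      rw [Pi.sub_apply, hE]
      simp only [emb, map_mul, map_div₀]
  · intro U hU
    refine flat_of_core S' hOk (r := r) (by nlinarith) rfl (Wn a a' Λ Λ' Ψ A (l ^ e) κ) ?_ U hU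
    rw [qx, qy, qc]
    exact hcore

end Pool.Agent.T9h77.NF
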