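import Pool.Agent.T9h77.NF.Asm
import Pool.Agent.T9h86.NF.UnitFin
import Pool.Agent.T9h89.NF.Abel
import Pool.Agent.T9h53.NF.Riem
import Pool.Agent.T9h53.NF.DivProd
import Pool.Agent.T9h41.NF.LipX
import Pool.Agent.T9h82.NF.Win
import Pool.Agent.T9h31.NF.Phi
import Pool.Agent.T9h31.NF.IdCount
import Pool.Agent.T9h31.NF.RoughTau
import Pool.Agent.T9h95.NF.MeanK
import Pool.Agent.T9h95.NF.Char
import Pool.Agent.T9h58.NF.LSieveK
import Pool.Agent.T9h8.NF.DivX
import Pool.Agent.T9h65.NF.Equi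
import Pool.Agent.T9h80.NF.NonCop
import Pool.Agent.T9h47.NF.Tile
import Pool.Agent.T9h47.NF.AbsInt
import Pool.Agent.T9h22.NF.Circle

/-!
# Number fields: assembly, the finished pieces inserted
-/

set_option autoImplicit false

namespace Pool.Agent.T9h77.NF

open Pool.Agent.T9h11.NF

/-- `SpanPerN` from the remaining pieces. -/
theorem spanPerN_of_rest (K : Type) [Field K] [NumberField K] (cCountK : CCountK K)
    (cSumK : CSumK K) (sieveBdOfK : SieveBdOfK K) (coreSOfK : CoreSOfK K)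
    (coreNOf : CoreNOf K) : SpanPerN K := by
  have latK : LatK K := T9h86.NF.latK K
  have abelK : AbelK K := T9h89.NF.abelK K
  have meanK : MeanK K := T9h95.NF.meanK K
  have riemK : RiemK K := T9h53.NF.riemK K
  have lipX : LipX K := T9h41.NF.lipX K
  have divXK : DivXK K := T9h8.NF.divXK K latK abelK meanK riemK lipX
  exact spanPerN_of_pieces K latK abelK riemK lipX (T9h82.NF.platK K) (T9h82.NF.bumpK K)
    (T9h31.NF.phiK K) meanK (T9h31.NF.roughTauK K) (T9h31.NF.idCountK K) (T9h86.NF.unitFin K)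
    (T9h95.NF.charK K) T9h58.NF.lSd (T9h58.NF.lSieveKOf K) (T9h53.NF.divProdK K) divXK
    (T9h65.NF.equiXK K abelK meanK lipX latK divXK)
    (T9h65.NF.twistXK K abelK meanK lipX latK divXK) cCountK cSumK sieveBdOfK
    (T9h80.NF.nonCopOfK K) coreSOfK (T9h47.NF.tileEx K) (T9h47.NF.absEx K) (T9h47.NF.latLog K)
    (T9h47.NF.absInt K) (T9h22.NF.circleOfK K) coreNOf (T9h82.NF.slotEx K)

end Pool.Agent.T9h77.NF
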