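import Pool.Agent.T9h77.NF.Rest
import Pool.Agent.T9h80.NF.CCount
import Pool.Agent.T9h8.NF.SlotSum
import Pool.Agent.T9h91.NF.CoreS
import Pool.Agent.T9h42.NF.SieveBd

/-!
# Number fields: assembly, everything except the core estimate
-/

set_option autoImplicit false

namespace Pool.Agent.T9h77.NF

open Pool.Agent.T9h11.NF

/-- `SpanPerN` from `CoreNOf`. -/
theorem spanPerN_of_coreNOf (K : Type) [Field K] [NumberField K] (coreNOf : CoreNOf K) :
    SpanPerN K := by
  have latK : LatK K := T9h86.NF.latK K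
  have abelK : AbelK K := T9h89.NF.abelK K
  have meanK : MeanK K := T9h95.NF.meanK K
  have riemK : RiemK K := T9h53.NF.riemK K
  have lipX : LipX K := T9h41.NF.lipX K
  exact spanPerN_of_rest K (T9h80.NF.cCountK K latK abelK meanK)
    (T9h8.NF.cSumK K latK abelK meanK riemK lipX) (T9h42.NF.sieveBdOfK K) (T9h91.NF.coreSOfK K)
    coreNOf

end Pool.Agent.T9h77.NF
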