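import Pool.Agent.T9h77.NF.Spec
import Pool.Agent.T9h77.QD.TypA

/-!
# Typical points for number fields, part 1: multilinear algebra
-/

set_option autoImplicit false
set_option linter.unusedSectionVars false

namespace Pool.Agent.T9h77.NF

open Finset Pool.Agent.T9h42.GF Pool.Agent.T9h57.QD
open Pool.Agent.T9h77.QD (degM degQ)

section alg

variable {V W : Type} [AddCommGroup V] [Module ℝ V] [AddCommGroup W] [Module ℝ W]
variable {P : Type} [Fintype P] [DecidableEq P]

/-- number of indices with value `some v`. -/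
def cnt {n : ℕ} (t : Fin n → Option P) (v : P) : ℕ := (univ.filter (fun j => t j = some v)).card

/-- the coefficient of `X^k` in `f (a + ∑_v X_v b_v)`. -/
noncomputable def cf {n : ℕ} (f : MultilinearMap ℝ (fun _ : Fin n => V) W) (a : V) (b : P → V)
    (k : P → ℕ) : W :=
  ∑ t ∈ (univ : Finset (Fin n → Option P)).filter (fun t => cnt t = k),
    f (fun j => (t j).elim a b)

theorem cnt_le {n : ℕ} (t : Fin n → Option P) (v : P) : cnt t v ≤ n := by
  have := card_le_univ (univ.filter (fun j => t j = some v))
  rwa [Fintype.card_fin] at this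

theorem prod_cnt {n : ℕ} (t : Fin n → Option P) (X : P → ℝ) :
    ∏ j, (t j).elim 1 X = ∏ v, X v ^ cnt t v := by
  have h1 : ∏ j, (t j).elim 1 X = ∏ o : Option P, ∏ j ∈ univ.filter (fun j => t j = o),
      (t j).elim 1 X := (prod_fiberwise_of_maps_to (fun j _ => mem_univ (t j)) _).symm
  rw [h1, Fintype.prod_option]
  have h2 : ∏ j ∈ univ.filter (fun j => t j = none), (t j).elim 1 X = 1 := by
    refine prod_eq_one fun j hj => ?_
    rw [(mem_filter.1 hj).2]
    rfl
  rw [h2, one_mul]
  refine prod_congr rfl fun v _ => ?_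
  rw [prod_congr rfl (g := fun _ => X v) (fun j hj => by rw [(mem_filter.1 hj).2]; rfl),
    prod_const]
  rfl

theorem cf_exp {n M : ℕ} (hn : n < M) (f : MultilinearMap ℝ (fun _ : Fin n => V) W) (a : V)
    (b : P → V) (X : P → ℝ) : f (fun _ => a + ∑ v, X v • b v) =
      ∑ k : P → Fin M, (∏ v, X v ^ (k v : ℕ)) • cf f a b (fun v => (k v : ℕ)) := by
  classical
  have h1 : (fun _ : Fin n => a + ∑ v, X v • b v) =
      fun _ : Fin n => ∑ o : Option P, o.elim a (fun v => X v • b v) := by
    funext _
    rw [Fintype.sum_option]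
    rfl
  have h2 : ∀ t : Fin n → Option P, f (fun j => (t j).elim a (fun v => X v • b v)) =
      (∏ v, X v ^ cnt t v) • f (fun j => (t j).elim a b) := by
    intro t
    rw [← prod_cnt, ← f.map_smul_univ]
    congr 1
    funext j
    rcases t j with _ | v
    · simp
    · simp
  have h0 := f.map_sum (fun (_ : Fin n) (o : Option P) => o.elim a (fun v => X v • b v))
  rw [h1, h0]
  simp only [h2]
  set c : (Fin n → Option P) → (P → Fin M) := fun t v => ⟨cnt t v, (cnt_le t v).trans_lt hn⟩
  rw [← sum_fiberwise_of_maps_to (g := c) (t := univ) (fun t _ => mem_univ _)]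
  refine sum_congr rfl fun k _ => ?_
  rw [cf, smul_sum]
  have h3 : (univ : Finset (Fin n → Option P)).filter (fun t => c t = k) =
      univ.filter (fun t => cnt t = fun v => (k v : ℕ)) := by
    ext t
    simp only [mem_filter, mem_univ, true_and]
    constructor
    · intro h
      funext v
      rw [← h]
    · intro h
      funext v
      exact Fin.ext (congrFun h v)
  rw [h3]
  refine sum_congr rfl fun t ht => ?_
  rw [(mem_filter.1 ht).2]

end alg

section deg

variable {ι : Type} [Fintype ι] [DecidableEq ι] {Ω : ι → Type}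
variable {P : Type} [Fintype P] [DecidableEq P]

theorem degM_cf {n : ℕ} {V : Type} [AddCommGroup V] [Module ℝ V]
    (f : MultilinearMap ℝ (fun _ : Fin n => V) ℝ) (U : Option ι → (∀ i, Ω i) → V) (b : P → V)
    (k : P → ℕ) (hU : ∀ o x y, (∀ i, o = some i → x i = y i) → U o x = U o y) :
    Deg n (fun x => cf f (∑ o, U o x) b k) := by
  classical
  unfold cf
  refine QD.Deg.sum _ fun t _ => ?_
  have h1 : ∀ x : ∀ i, Ω i, f (fun j => (t j).elim (∑ o, U o x) b) =
      f (fun j => ∑ o, (t j).elim (U o x) (fun v => if o = none then b v else 0)) := by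
    intro x
    congr 1
    funext j
    rcases t j with _ | v
    · simp
    · simp
  simp only [h1]
  refine degM f _ fun j o x y h => ?_
  rcases t j with _ | v
  · exact hU o x y h
  · rfl

theorem degQ_cf {n : ℕ} {V : Type} [AddCommGroup V] [Module ℝ V]
    (f : MultilinearMap ℝ (fun _ : Fin n => V) (V →ₗ[ℝ] ℝ)) (U W : Option ι → (∀ i, Ω i) → V)
    (b : P → V) (k : P → ℕ) (hU : ∀ o x y, (∀ i, o = some i → x i = y i) → U o x = U o y)
    (hW : ∀ o x y, (∀ i, o = some i → x i = y i) → W o x = W o y) :
    Deg (n + 1) (fun x => cf f (∑ o, U o x) b k (∑ o, W o x)) := by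
  classical
  unfold cf
  simp only [LinearMap.sum_apply]
  refine QD.Deg.sum _ fun t _ => ?_
  have h1 : ∀ x : ∀ i, Ω i, f (fun j => (t j).elim (∑ o, U o x) b) =
      f (fun j => ∑ o, (t j).elim (U o x) (fun v => if o = none then b v else 0)) := by
    intro x
    congr 1
    funext j
    rcases t j with _ | v
    · simp
    · simp
  simp only [h1]
  refine degQ f _ _ (fun j o x y h => ?_) hW
  rcases t j with _ | v
  · exact hU o x y h
  · rfl

end deg

end Pool.Agent.T9h77.NF
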