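import Pool.Agent.T9h77.NF.TypA

/-!
# Typical points for number fields, part 2: the relation, degrees
-/

set_option autoImplicit false
set_option linter.unusedSectionVars false

namespace Pool.Agent.T9h77.NF

open Finset NumberField H39Gon Pool.Agent.T9h42.GF Pool.Agent.T9h57.QD
open scoped TensorProduct

variable {K : Type} [Field K] [NumberField K]

/-- families of forms. -/
abbrev FQ (K : Type) [Field K] [NumberField K] (m : ℕ) : Type :=
  ∀ μ : Fin m, MultilinearMap ℝ (fun _ : Fin (μ : ℕ) => VK K) (VK K →ₗ[ℝ] ℝ)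

/-- families of forms. -/
abbrev FR (K : Type) [Field K] [NumberField K] (m : ℕ) : Type :=
  ∀ μ : Fin m, MultilinearMap ℝ (fun _ : Fin (μ : ℕ) => VK K) ℝ

/-- the sum of the forms. -/
noncomputable def qq {m : ℕ} (Q : FQ K m) (w v : VK K) : ℝ := ∑ μ, Q μ (fun _ => w) v

/-- the sum of the forms. -/
noncomputable def rr {m : ℕ} (P : FR K m) (w : VK K) : ℝ := ∑ μ, P μ (fun _ => w)

/-- exponents. -/
abbrev EX (K : Type) [Field K] [NumberField K] (m : ℕ) : Type := InfinitePlace K → Fin (m + 1)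

/-- index set of the basis functions. -/
abbrev LI (K : Type) [Field K] [NumberField K] (m : ℕ) (E : Type) : Type :=
  EX K m ⊕ ((InfinitePlace K × EX K m) ⊕ (E × EX K m))

section
variable {m : ℕ} {E : Type} [Fintype E]

/-- the basis functions. -/
noncomputable def phi (ψ : E → (InfinitePlace K → ℂ) → ℝ) : LI K m E → (InfinitePlace K → ℂ) → ℝ
  | .inl k, z => mon k z
  | .inr (.inl (v, k)), z => mon k z * Real.log ‖1 - z v‖
  | .inr (.inr (i, k)), z => mon k z * ψ i z

variable (Q : FQ K m) (P : E → FR K m)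

/-- the coefficients. -/
noncomputable def cc (a : VK K) (b : InfinitePlace K → VK K) (v : VK K)
    (v' : InfinitePlace K → VK K) : LI K m E → ℝ
  | .inl k => ∑ μ, cf (Q μ) a b (fun p => (k p : ℕ)) v
  | .inr (.inl (p, k)) => ∑ μ, cf (Q μ) a b (fun p => (k p : ℕ)) (v' p)
  | .inr (.inr (i, k)) => ∑ μ, cf (P i μ) a b (fun p => (k p : ℕ))

theorem qq_exp (a : VK K) (b : InfinitePlace K → VK K) (v : VK K) (v' : InfinitePlace K → VK K)
    (X Y : InfinitePlace K → ℝ) :
    qq Q (a + ∑ p, X p • b p) (v + ∑ p, Y p • v' p) = ∑ k : EX K m, (∏ p, X p ^ (k p : ℕ)) *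
      (cc Q P a b v v' (.inl k) + ∑ p, Y p * cc Q P a b v v' (.inr (.inl (p, k)))) := by
  have h1 : ∀ μ : Fin m, Q μ (fun _ => a + ∑ p, X p • b p) (v + ∑ p, Y p • v' p) =
      ∑ k : EX K m, (∏ p, X p ^ (k p : ℕ)) * (cf (Q μ) a b (fun p => (k p : ℕ)) v +
        ∑ p, Y p * cf (Q μ) a b (fun p => (k p : ℕ)) (v' p)) := by
    intro μ
    rw [cf_exp (M := m + 1) (by have := μ.2; omega) (Q μ) a b X, LinearMap.sum_apply]
    refine sum_congr rfl fun k _ => ?_
    rw [LinearMap.smul_apply, map_add, map_sum, smul_eq_mul]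
    simp only [map_smul, smul_eq_mul]
  unfold qq
  simp only [h1]
  rw [sum_comm]
  refine sum_congr rfl fun k _ => ?_
  rw [← mul_sum, sum_add_distrib]
  congr 2
  rw [sum_comm]
  refine sum_congr rfl fun p _ => ?_
  rw [← mul_sum]
  rfl

theorem rr_exp (a : VK K) (b : InfinitePlace K → VK K) (v : VK K) (v' : InfinitePlace K → VK K)
    (X : InfinitePlace K → ℝ) (i : E) :
    rr (P i) (a + ∑ p, X p • b p) = ∑ k : EX K m, (∏ p, X p ^ (k p : ℕ)) *
      cc Q P a b v v' (.inr (.inr (i, k))) := by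
  have h1 : ∀ μ : Fin m, P i μ (fun _ => a + ∑ p, X p • b p) =
      ∑ k : EX K m, (∏ p, X p ^ (k p : ℕ)) * cf (P i μ) a b (fun p => (k p : ℕ)) := by
    intro μ
    rw [cf_exp (M := m + 1) (by have := μ.2; omega) (P i μ) a b X]
    exact sum_congr rfl fun k _ => smul_eq_mul _ _
  unfold rr
  simp only [h1]
  rw [sum_comm]
  refine sum_congr rfl fun k _ => ?_
  rw [← mul_sum]
  rfl

theorem sum_LI (g : LI K m E → ℝ) : ∑ l, g l = ∑ k, g (.inl k) + ∑ p, ∑ k, g (.inr (.inl (p, k))) +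
    ∑ i, ∑ k, g (.inr (.inr (i, k))) := by
  rw [Fintype.sum_sum_type, Fintype.sum_sum_type, Fintype.sum_prod_type, Fintype.sum_prod_type,
    add_assoc]

/-- the relation, at a point. -/
theorem rel_phi (ψ : E → (InfinitePlace K → ℂ) → ℝ) (a : VK K) (b : InfinitePlace K → VK K)
    (v : VK K) (v' : InfinitePlace K → VK K) (z : InfinitePlace K → ℂ)
    (h : qq Q (a + ∑ p, Real.log ‖z p‖ • b p) (v + ∑ p, Real.log ‖1 - z p‖ • v' p) +
      ∑ i, rr (P i) (a + ∑ p, Real.log ‖z p‖ • b p) * ψ i z = 0) :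
    ∑ l, phi ψ l z * cc Q P a b v v' l = 0 := by
  have h1 : ∀ i, rr (P i) (a + ∑ p, Real.log ‖z p‖ • b p) = _ :=
    fun i => rr_exp Q P a b v v' (fun p => Real.log ‖z p‖) i
  rw [qq_exp Q P a b v v'] at h
  simp only [h1] at h
  rw [sum_LI, ← h]
  congr 1
  · rw [sum_comm, ← sum_add_distrib]
    refine sum_congr rfl fun k _ => ?_
    rw [mul_add, mul_sum]
    simp only [phi, mon]
    congr 1
    refine sum_congr rfl fun p _ => ?_
    ring
  · refine sum_congr rfl fun i _ => ?_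
    rw [sum_mul]
    refine sum_congr rfl fun k _ => ?_
    simp only [phi, mon]
    ring

/-- if all coefficients vanish the forms vanish. -/
theorem qq_zero (a : VK K) (b : InfinitePlace K → VK K) (v : VK K) (v' : InfinitePlace K → VK K)
    (X Y : InfinitePlace K → ℝ) (h : ∀ l, cc Q P a b v v' l = 0) :
    qq Q (a + ∑ p, X p • b p) (v + ∑ p, Y p • v' p) = 0 := by
  rw [qq_exp Q P a b v v']
  refine sum_eq_zero fun k _ => ?_
  rw [h, zero_add, sum_eq_zero (fun p _ => by rw [h, mul_zero]), mul_zero]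

theorem rr_zero (a : VK K) (b : InfinitePlace K → VK K) (v : VK K) (v' : InfinitePlace K → VK K)
    (X : InfinitePlace K → ℝ) (h : ∀ l, cc Q P a b v v' l = 0) (i : E) :
    rr (P i) (a + ∑ p, X p • b p) = 0 := by
  rw [rr_exp Q P a b v v' X i]
  exact sum_eq_zero fun k _ => by rw [h, mul_zero]

theorem deg_cc {ι : Type} [Fintype ι] [DecidableEq ι] {Ω : ι → Type}
    (U W : Option ι → (∀ i, Ω i) → VK K) (b v' : InfinitePlace K → VK K) (l : LI K m E)
    (hU : ∀ o x y, (∀ i, o = some i → x i = y i) → U o x = U o y)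
    (hW : ∀ o x y, (∀ i, o = some i → x i = y i) → W o x = W o y) :
    Deg (m + 1) (fun x => cc Q P (∑ o, U o x) b (∑ o, W o x) v' l) := by
  rcases l with k | ⟨p, k⟩ | ⟨i, k⟩
  · refine QD.Deg.sum _ fun μ _ => ?_
    exact QD.Deg.mono (by have := μ.2; omega) (degQ_cf (Q μ) U W b _ hU hW)
  · refine QD.Deg.sum _ fun μ _ => ?_
    have h1 := degM_cf (n := (μ : ℕ)) ((LinearMap.applyₗ (R := ℝ) (v' p)).compMultilinearMap (Q μ))
      U b (fun p => (k p : ℕ)) hU
    have h2 : ∀ x, cf ((LinearMap.applyₗ (R := ℝ) (v' p)).compMultilinearMap (Q μ)) (∑ o, U o x) b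
        (fun p => (k p : ℕ)) = cf (Q μ) (∑ o, U o x) b (fun p => (k p : ℕ)) (v' p) := by
      intro x
      unfold cf
      rw [LinearMap.sum_apply]
      rfl
    simp only [h2] at h1
    exact QD.Deg.mono (by have := μ.2; omega) h1
  · refine QD.Deg.sum _ fun μ _ => ?_
    exact QD.Deg.mono (by have := μ.2; omega) (degM_cf (P i μ) U b _ hU)

end

end Pool.Agent.T9h77.NF
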