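import Pool.Agent.T9h77.NF.TypB

/-!
# Typical points for number fields, part 3: solutions and windows
-/

set_option autoImplicit false
set_option linter.unusedSectionVars false

namespace Pool.Agent.T9h77.NF

open Finset NumberField H39Gon Pool.Agent.T9h42.GF Pool.Agent.T9h57.QD
open scoped TensorProduct

variable {K : Type} [Field K] [NumberField K]

theorem cl_mul {x y : K} (hx : x ≠ 0) (hy : y ≠ 0) : cl (x * y) = cl x + cl y := by
  unfold cl
  rw [dif_neg hx, dif_neg hy, dif_neg (mul_ne_zero hx hy), ← ofMul_mul]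
  congr 1
  exact Units.ext rfl

theorem cr_mul {x y : K} (hx : x ≠ 0) (hy : y ≠ 0) : cr (x * y) = cr x + cr y := by
  unfold cr
  rw [cl_mul hx hy, TensorProduct.tmul_add]

theorem cr_one : cr (1 : K) = 0 := by
  have h := cr_mul (one_ne_zero (α := K)) one_ne_zero
  rw [mul_one] at h
  exact left_eq_add.1 h

theorem cr_neg (x : K) : cr (-x) = cr x := by
  by_cases hx : x = 0
  · rw [hx, neg_zero]
  · have h1 : cr (-1 : K) = 0 := by
      have h := cr_mul (K := K) (x := -1) (y := -1) (by norm_num) (by norm_num)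
      rw [neg_mul_neg, one_mul, cr_one] at h
      have h2 : (2 : ℝ) • cr (-1 : K) = 0 := by
        rw [two_smul]; exact h.symm
      exact (smul_eq_zero.1 h2).resolve_left (by norm_num)
    have h2 := cr_mul (K := K) (x := -1) (y := x) (by norm_num) hx
    rw [neg_one_mul] at h2
    rw [h2, h1, zero_add]

theorem cr_div {x y : K} (hx : x ≠ 0) (hy : y ≠ 0) : cr (x / y) = cr x - cr y := by
  have h := cr_mul (div_ne_zero hx hy) hy
  rw [div_mul_cancel₀ _ hy] at h
  rw [h, add_sub_cancel_right]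

theorem Lg_cr {x : K} (hx : x ≠ 0) (v : InfinitePlace K) : Lg (cr x) v = Real.log ‖emb x v‖ := by
  unfold Lg cr
  rw [LinearMap.liftBaseChange_tmul, one_smul]
  unfold cl emb
  rw [dif_neg hx, InfinitePlace.norm_embedding_eq]
  rfl

theorem emb_im {v : InfinitePlace K} (hv : v.IsReal) (x : K) : (emb x v).im = 0 := by
  have h1 := InfinitePlace.isReal_iff.1 hv
  have h2 : (starRingEnd ℂ) (v.embedding x) = v.embedding x := by
    have h3 := RingHom.congr_fun h1 x
    exact h3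
  exact Complex.conj_eq_iff_im.1 h2

theorem co_mul {x y : 𝓞 K} (hx : x ≠ 0) (hy : y ≠ 0) : co (x * y) = co x + co y := by
  show cr ((x : K) * (y : K)) = _
  refine cr_mul ?_ ?_
  · exact fun h => hx (by exact_mod_cast h)
  · exact fun h => hy (by exact_mod_cast h)

theorem co_one : co (1 : 𝓞 K) = 0 := cr_one

theorem co_prod {T : Type} (s : Finset T) (f : T → 𝓞 K) (h : ∀ i ∈ s, f i ≠ 0) :
    co (∏ i ∈ s, f i) = ∑ i ∈ s, co (f i) := by
  classical
  induction s using Finset.induction_on with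
  | empty => rw [prod_empty, sum_empty, co_one]
  | insert a s ha ih =>
    rw [prod_insert ha, sum_insert ha,
      co_mul (h a (mem_insert_self _ _))
        (prod_ne_zero_iff.2 (fun i hi => h i (mem_insert_of_mem hi))),
      ih (fun i hi => h i (mem_insert_of_mem hi))]

/-- the projection along the section `s`. -/
noncomputable def pj (s : (InfinitePlace K → ℝ) →ₗ[ℝ] VK K) (w : VK K) : VK K := w - s (Lg w)

/-- the basis of the image of the section. -/
noncomputable def eb (s : (InfinitePlace K → ℝ) →ₗ[ℝ] VK K) (p : InfinitePlace K) : VK K :=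
  s (Pi.single p 1)

theorem s_eq (s : (InfinitePlace K → ℝ) →ₗ[ℝ] VK K) (y : InfinitePlace K → ℝ) :
    s y = ∑ p, y p • eb s p := by
  conv_lhs => rw [← Finset.univ_sum_single y]
  rw [map_sum]
  refine sum_congr rfl fun p _ => ?_
  unfold eb
  rw [← map_smul]
  congr 1
  rw [← Pi.single_smul, smul_eq_mul, mul_one]

theorem pj_add_s (s : (InfinitePlace K → ℝ) →ₗ[ℝ] VK K) (w : VK K) :
    pj s w + ∑ p, Lg w p • eb s p = w := by
  rw [← s_eq]
  unfold pj
  abel

theorem pj_sum (s : (InfinitePlace K → ℝ) →ₗ[ℝ] VK K) {T : Type} (S : Finset T) (f : T → VK K) :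
    pj s (∑ i ∈ S, f i) = ∑ i ∈ S, pj s (f i) := by
  unfold pj
  rw [map_sum, map_sum, sum_sub_distrib]

theorem pj_add (s : (InfinitePlace K → ℝ) →ₗ[ℝ] VK K) (u v : VK K) :
    pj s (u + v) = pj s u + pj s v := by
  unfold pj
  rw [map_add, map_add]
  abel

/-- shift by an element of the image of the section. -/
theorem shift (s : (InfinitePlace K → ℝ) →ₗ[ℝ] VK K) (w u g : VK K)
    (hg : s (Lg g) = g) (h : u = w + g) : u = pj s w + ∑ p, Lg u p • eb s p := by
  rw [← s_eq]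
  unfold pj
  rw [h, map_add, map_add, hg]
  abel

/-- the relation at a solution. -/
theorem sol_rel {m : ℕ} {E : Type} [Fintype E] (Q : FQ K m) (P : E → FR K m)
    (ψ : E → (InfinitePlace K → ℂ) → ℝ) (hSt : St Q P ψ)
    (s₁ s₂ : (InfinitePlace K → ℝ) →ₗ[ℝ] VK K) {A a b c ε₁ ε₂ y : 𝓞 K}
    (hs₁ : s₁ (Lg (co ε₁)) = co ε₁) (hs₂ : s₂ (Lg (co ε₂)) = co ε₂)
    (hA : A ≠ 0) (ha : a ≠ 0) (hb : b ≠ 0) (hc : c ≠ 0) (hy : y ≠ 0)
    (h1 : ε₁ ≠ 0) (h2 : ε₂ ≠ 0) (h : A * ε₁ * a + y * b = ε₂ * c)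
    (hD : emb (-(((A * ε₁ * a : 𝓞 K) : K) / ((y * b : 𝓞 K) : K))) ∈ Dm K) :
    ∑ j, phi ψ j (emb (-(((A * ε₁ * a : 𝓞 K) : K) / ((y * b : 𝓞 K) : K)))) *
      cc Q P (pj s₁ (co a + co A - co b - co y)) (eb s₁)
        (pj s₂ (co c - co b - co y)) (eb s₂) j = 0 := by
  set n₁ : 𝓞 K := A * ε₁ * a with hn₁
  set n₂ : 𝓞 K := y * b with hn₂
  have g1 : n₁ ≠ 0 := mul_ne_zero (mul_ne_zero hA h1) ha
  have g2 : n₂ ≠ 0 := mul_ne_zero hy hb
  have g3 : ε₂ * c ≠ 0 := mul_ne_zero h2 hc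
  have g1' : (n₁ : K) ≠ 0 := fun h => g1 (by exact_mod_cast h)
  have g2' : (n₂ : K) ≠ 0 := fun h => g2 (by exact_mod_cast h)
  have g3' : ((ε₂ * c : 𝓞 K) : K) ≠ 0 := fun h => g3 (by exact_mod_cast h)
  set x : K := -((n₁ : K) / (n₂ : K)) with hx
  have hx0 : x ≠ 0 := by rw [hx]; exact neg_ne_zero.2 (div_ne_zero g1' g2')
  have e1 : cr x = co n₁ - co n₂ := by rw [hx, cr_neg, cr_div g1' g2']; rfl
  have e2 : 1 - x = ((ε₂ * c : 𝓞 K) : K) / (n₂ : K) := by
    have e0 : ((n₁ + n₂ : 𝓞 K) : K) = (n₁ : K) + (n₂ : K) := rfl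
    rw [hx, ← h, e0]
    field_simp
    ring
  have hx1 : 1 - x ≠ 0 := by rw [e2]; exact div_ne_zero g3' g2'
  have e3 : cr (1 - x) = co (ε₂ * c) - co n₂ := by rw [e2, cr_div g3' g2']; rfl
  have e4 : co n₂ = co y + co b := co_mul hy hb
  have e5 : cr x = (co a + co A - co b - co y) + co ε₁ := by
    rw [e1, e4, hn₁, co_mul (mul_ne_zero hA h1) ha, co_mul hA h1]
    abel
  have e6 : cr (1 - x) = (co c - co b - co y) + co ε₂ := by
    rw [e3, e4, co_mul h2 hc]
    abel
  have e7 : ∀ p, Lg (cr x) p = Real.log ‖emb x p‖ := fun p => Lg_cr hx0 p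
  have e8 : ∀ p, Lg (cr (1 - x)) p = Real.log ‖1 - emb x p‖ := by
    intro p
    rw [Lg_cr hx1]
    congr 2
    unfold emb
    rw [map_sub, map_one]
  refine rel_phi Q P ψ _ _ _ _ _ ?_
  have f1 := shift s₁ _ _ _ hs₁ e5
  have f2 := shift s₂ _ _ _ hs₂ e6
  simp only [e7] at f1
  simp only [e8] at f2
  rw [← f1, ← f2]
  exact hSt x hD

/-- the basis functions are continuous. -/
theorem phi_cont {m : ℕ} {E : Type} (ψ : E → (InfinitePlace K → ℂ) → ℝ)
    (hψ : ∀ i, ContinuousOn (ψ i) (Dm K)) (l : LI K m E) : ContinuousOn (phi ψ l) (Dm K) := by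
  have hlog : ∀ v : InfinitePlace K,
      ContinuousOn (fun z : InfinitePlace K → ℂ => Real.log ‖z v‖) (Dm K) := by
    intro v
    refine ContinuousOn.log ?_ ?_
    · exact (continuous_apply v).norm.continuousOn
    · intro z hz
      exact (hz v).1.ne'
  have hlog1 : ∀ v : InfinitePlace K,
      ContinuousOn (fun z : InfinitePlace K → ℂ => Real.log ‖1 - z v‖) (Dm K) := by
    intro v
    refine ContinuousOn.log ?_ ?_
    · exact (continuous_const.sub (continuous_apply v)).norm.continuousOn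
    · intro z hz h0
      have h1 := (hz v).2.1
      rw [norm_eq_zero, sub_eq_zero] at h0
      rw [← h0, norm_one] at h1
      exact lt_irrefl _ h1
  have hmon : ∀ k : EX K m, ContinuousOn (mon k) (Dm K) := by
    intro k
    unfold mon
    exact continuousOn_finsetProd _ fun v _ => (hlog v).pow _
  rcases l with k | ⟨v, k⟩ | ⟨i, k⟩
  · exact hmon k
  · exact (hmon k).mul (hlog1 v)
  · exact (hmon k).mul (hψ i)

/-- windows. -/
theorem window {m : ℕ} {E : Type} [Fintype E] (ψ : E → (InfinitePlace K → ℂ) → ℝ)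
    (hψ : ∀ i, ContinuousOn (ψ i) (Dm K)) {z₀ : InfinitePlace K → ℂ} (hz₀ : z₀ ∈ Dm K) {δ : ℝ}
    (hδ : 0 < δ) : ∃ ρ : ℝ, 0 < ρ ∧ ∀ σ : InfinitePlace K → ℂ,
      (∀ v, ‖σ v - z₀ v / (z₀ v - 1)‖ ≤ ρ) →
      (∀ v : InfinitePlace K, v.IsReal → (σ v / (σ v - 1)).im = 0) →
      (fun v => σ v / (σ v - 1)) ∈ Dm K ∧
        ∀ l : LI K m E, |phi ψ l (fun v => σ v / (σ v - 1)) - phi ψ l z₀| ≤ δ := by
  set g : (InfinitePlace K → ℂ) → (InfinitePlace K → ℂ) := fun σ v => σ v / (σ v - 1) with hg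
  set σ₀ : InfinitePlace K → ℂ := fun v => z₀ v / (z₀ v - 1) with hσ₀
  have hz1 : ∀ v, z₀ v - 1 ≠ 0 := by
    intro v h0
    have h1 := (hz₀ v).2.1
    rw [sub_eq_zero] at h0
    rw [h0, norm_one] at h1
    exact lt_irrefl _ h1
  have hσ1 : ∀ v, σ₀ v - 1 = 1 / (z₀ v - 1) := by
    intro v
    have := hz1 v
    simp only [hσ₀]
    field_simp
    ring
  have hgσ : g σ₀ = z₀ := by
    funext v
    have h1 := hz1 v
    simp only [hg]
    rw [hσ1 v]
    simp only [hσ₀]
    field_simp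
  have hgc : ContinuousAt g σ₀ := by
    rw [continuousAt_pi]
    intro v
    refine ContinuousAt.div (continuous_apply v).continuousAt
      ((continuous_apply v).continuousAt.sub continuousAt_const) ?_
    rw [hσ1 v]
    exact one_div_ne_zero (hz1 v)
  have hev1 : ∀ᶠ z in nhdsWithin z₀ (Dm K), ∀ l : LI K m E, |phi ψ l z - phi ψ l z₀| ≤ δ := by
    rw [Filter.eventually_all]
    intro l
    have h4 := Metric.continuousWithinAt_iff'.1 (phi_cont ψ hψ l z₀ hz₀) δ hδ
    filter_upwards [h4] with z hz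
    rw [Real.dist_eq] at hz
    exact hz.le
  have hev2 : ∀ᶠ z in nhds z₀, ∀ v : InfinitePlace K, 0 < ‖z v‖ ∧ ‖z v‖ < 1 := by
    rw [Filter.eventually_all]
    intro v
    have hc : ContinuousAt (fun z : InfinitePlace K → ℂ => ‖z v‖) z₀ :=
      (continuous_apply v).norm.continuousAt
    exact (continuousAt_const.eventually_lt hc (hz₀ v).1).and
      (hc.eventually_lt continuousAt_const (hz₀ v).2.1)
  rw [eventually_nhdsWithin_iff] at hev1
  have hev := hgc.eventually (by rw [hgσ]; exact hev1.and hev2)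
  obtain ⟨ρ, hρ, hball⟩ := Metric.eventually_nhds_iff.1 hev
  refine ⟨ρ / 2, by linarith, fun σ h1 h2 => ?_⟩
  have h3 : dist σ σ₀ < ρ := by
    refine lt_of_le_of_lt ((dist_pi_le_iff (by linarith : (0 : ℝ) ≤ ρ / 2)).2 fun v => ?_)
      (half_lt_self hρ)
    rw [dist_eq_norm]
    exact h1 v
  obtain ⟨h4, h5⟩ := hball h3
  have h6 : g σ ∈ Dm K := fun v => ⟨(h5 v).1, (h5 v).2, h2 v⟩
  exact ⟨h6, h4 h6⟩

end Pool.Agent.T9h77.NF
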