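import Pool.Agent.T9h77.NF.TypC
import Pool.Agent.T9h77.QD.Rb1

/-!
# Typical points for number fields, part 4: the product space
-/

set_option autoImplicit false
set_option linter.unusedSectionVars false

namespace Pool.Agent.T9h77.NF

open Finset NumberField H39Gon Pool.Agent.T9h42.GF Pool.Agent.T9h57.QD
open Pool.Agent.T9h77.QD (IsP exists_le_pav pav_sum)
open scoped TensorProduct

variable {K : Type} [Field K] [NumberField K]

theorem isP_S {S : Slots K} (h : S.Ok) (N s : ℕ) : IsP (S.p N s) := by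
  obtain ⟨-, -, -, h1, h2, h3, h4, h5, h6⟩ := h
  refine ⟨fun i x => ?_, fun i => ?_⟩
  · rcases i with _ | i | j
    · exact h3 _
    · exact h1 _
    · exact h2 _
  · rcases i with _ | i | j
    · rw [← h6]
      exact sum_coe_sort S.C (fun x => S.pc x)
    · rw [← h4]
      exact sum_coe_sort S.X (fun x => S.px x)
    · rw [← h5]
      exact sum_coe_sort S.Y (fun x => S.py x)

/-- the approximate relation on the support of the weight. -/
theorem approx {m : ℕ} {E : Type} [Fintype E] (Q : FQ K m) (P : E → FR K m)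
    (ψ : E → (InfinitePlace K → ℂ) → ℝ) (hSt : St Q P ψ)
    (s₁ s₂ : (InfinitePlace K → ℝ) →ₗ[ℝ] VK K) {A a b c ε₁ ε₂ y : 𝓞 K}
    (hs₁ : s₁ (Lg (co ε₁)) = co ε₁) (hs₂ : s₂ (Lg (co ε₂)) = co ε₂)
    (hA : A ≠ 0) (ha : a ≠ 0) (hb : b ≠ 0) (hc : c ≠ 0) (hy : y ≠ 0)
    (h1 : ε₁ ≠ 0) (h2 : ε₂ ≠ 0) (h : A * ε₁ * a + y * b = ε₂ * c)
    {z₀ : InfinitePlace K → ℂ} {δ ρ : ℝ}
    (hw : ∀ σ : InfinitePlace K → ℂ, (∀ v, ‖σ v - z₀ v / (z₀ v - 1)‖ ≤ ρ) →
      (∀ v : InfinitePlace K, v.IsReal → (σ v / (σ v - 1)).im = 0) →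
      (fun v => σ v / (σ v - 1)) ∈ Dm K ∧
        ∀ l : LI K m E, |phi ψ l (fun v => σ v / (σ v - 1)) - phi ψ l z₀| ≤ δ)
    (hσ : ∀ v, ‖emb ((A * ε₁ * a : 𝓞 K) : K) v / emb ((ε₂ * c : 𝓞 K) : K) v -
      z₀ v / (z₀ v - 1)‖ ≤ ρ) :
    |∑ j, phi ψ j z₀ * cc Q P (pj s₁ (co a + co A - co b - co y)) (eb s₁)
        (pj s₂ (co c - co b - co y)) (eb s₂) j| ≤
      δ * ∑ j, |cc Q P (pj s₁ (co a + co A - co b - co y)) (eb s₁)
        (pj s₂ (co c - co b - co y)) (eb s₂) j| := by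
  set n₁ : 𝓞 K := A * ε₁ * a with hn₁
  set n₂ : 𝓞 K := y * b with hn₂
  have g2 : n₂ ≠ 0 := mul_ne_zero hy hb
  have g3 : ε₂ * c ≠ 0 := mul_ne_zero h2 hc
  have g2' : (n₂ : K) ≠ 0 := fun h => g2 (by exact_mod_cast h)
  have g3' : ((ε₂ * c : 𝓞 K) : K) ≠ 0 := fun h => g3 (by exact_mod_cast h)
  have hsum : ((ε₂ * c : 𝓞 K) : K) = (n₁ : K) + (n₂ : K) := by rw [← h]; rfl
  have key : (fun v : InfinitePlace K => (emb (n₁ : K) v / emb ((ε₂ * c : 𝓞 K) : K) v) /
      (emb (n₁ : K) v / emb ((ε₂ * c : 𝓞 K) : K) v - 1)) = emb (-((n₁ : K) / (n₂ : K))) := by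
    funext v
    unfold emb
    have f3 : v.embedding ((ε₂ * c : 𝓞 K) : K) ≠ 0 := (map_ne_zero _).2 g3'
    have f2 : v.embedding (n₂ : K) ≠ 0 := (map_ne_zero _).2 g2'
    have f4 : v.embedding ((ε₂ * c : 𝓞 K) : K) = v.embedding (n₁ : K) + v.embedding (n₂ : K) := by
      rw [hsum, map_add]
    rw [map_neg, map_div₀]
    have f5 : v.embedding (n₁ : K) / v.embedding ((ε₂ * c : 𝓞 K) : K) - 1 =
        -(v.embedding (n₂ : K) / v.embedding ((ε₂ * c : 𝓞 K) : K)) := by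
      rw [div_sub_one f3, f4, ← neg_div]
      congr 1
      ring
    rw [f5]
    field_simp
  obtain ⟨w1, w2⟩ := hw _ hσ (by
    intro v hv
    have h5 := congrFun key v
    have h6 := emb_im hv (-((n₁ : K) / (n₂ : K)))
    rw [← h5] at h6
    exact h6)
  rw [key] at w1 w2
  have hrel := sol_rel Q P ψ hSt s₁ s₂ hs₁ hs₂ hA ha hb hc hy h1 h2 h w1
  rw [← hn₁, ← hn₂] at hrel
  set F : LI K m E → ℝ := cc Q P (pj s₁ (co a + co A - co b - co y)) (eb s₁)
        (pj s₂ (co c - co b - co y)) (eb s₂) with hF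
  have h5 : ∑ j, phi ψ j z₀ * F j =
      ∑ j, (phi ψ j z₀ - phi ψ j (emb (-((n₁ : K) / (n₂ : K))))) * F j := by
    simp only [sub_mul]
    rw [sum_sub_distrib, hrel, sub_zero]
  rw [h5, mul_sum]
  refine (abs_sum_le_sum_abs _ _).trans (sum_le_sum fun j _ => ?_)
  rw [abs_mul, abs_sub_comm]
  exact mul_le_mul_of_nonneg_right (w2 j) (abs_nonneg _)

section dg
variable {m : ℕ} {E : Type} [Fintype E] (Q : FQ K m) (P : E → FR K m)
variable {S : Slots K} (hX0 : 0 ∉ S.X) (hY0 : 0 ∉ S.Y) (N s : ℕ)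
include hX0 hY0

/-- the coefficients have bounded degree. -/
theorem deg_F (s₁ s₂ : (InfinitePlace K → ℝ) →ₗ[ℝ] VK K) (v₀ v₁ : VK K) (l : LI K m E) :
    Deg (m + 1) (fun x : (∀ i, S.Pt N s i) =>
      cc Q P (pj s₁ (co (∏ i, (x (some (Sum.inl i))).1) + v₀ -
          co (∏ j, (x (some (Sum.inr j))).1) - v₁)) (eb s₁)
        (pj s₂ (co (x none).1 - co (∏ j, (x (some (Sum.inr j))).1) - v₁)) (eb s₂) l) := by
  set U : Option (Ix N s) → (∀ i, S.Pt N s i) → VK K := fun o x =>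
    match o with
    | none => pj s₁ (v₀ + -v₁)
    | some none => 0
    | some (some (Sum.inl i)) => pj s₁ (co (x (some (Sum.inl i))).1)
    | some (some (Sum.inr j)) => pj s₁ (-co (x (some (Sum.inr j))).1) with hUdef
  set W : Option (Ix N s) → (∀ i, S.Pt N s i) → VK K := fun o x =>
    match o with
    | none => pj s₂ (-v₁)
    | some none => pj s₂ (co (x none).1)
    | some (some (Sum.inl i)) => 0
    | some (some (Sum.inr j)) => pj s₂ (-co (x (some (Sum.inr j))).1) with hWdef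
  have hx1 : ∀ (x : ∀ i, S.Pt N s i) (i : Fin N), (x (some (Sum.inl i))).1 ≠ 0 := by
    intro x i h0
    have h1 := (x (some (Sum.inl i))).2
    rw [h0] at h1
    exact hX0 h1
  have hx2 : ∀ (x : ∀ i, S.Pt N s i) (j : Fin s), (x (some (Sum.inr j))).1 ≠ 0 := by
    intro x j h0
    have h1 := (x (some (Sum.inr j))).2
    rw [h0] at h1
    exact hY0 h1
  have e1 : ∀ x : (∀ i, S.Pt N s i), pj s₁ (co (∏ i, (x (some (Sum.inl i))).1) + v₀ -
          co (∏ j, (x (some (Sum.inr j))).1) - v₁) = ∑ o, U o x := by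
    intro x
    rw [Fintype.sum_option, Fintype.sum_option, Fintype.sum_sum_type]
    simp only [hUdef]
    rw [← pj_sum, ← pj_sum, zero_add, ← pj_add, ← pj_add, co_prod _ _ (fun i _ => hx1 x i),
      co_prod _ _ (fun i _ => hx2 x i), sum_neg_distrib]
    congr 1
    abel
  have e2 : ∀ x : (∀ i, S.Pt N s i), pj s₂ (co (x none).1 -
      co (∏ j, (x (some (Sum.inr j))).1) - v₁) = ∑ o, W o x := by
    intro x
    rw [Fintype.sum_option, Fintype.sum_option, Fintype.sum_sum_type]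
    simp only [hWdef]
    rw [← pj_sum, sum_const_zero, zero_add, ← pj_add, ← pj_add,
      co_prod _ _ (fun i _ => hx2 x i), sum_neg_distrib]
    congr 1
    abel
  simp only [e1, e2]
  refine deg_cc Q P U W _ _ l ?_ ?_
  · intro o x y h
    rcases o with _ | _ | i | j
    · rfl
    · rfl
    · simp only [hUdef]
      rw [h (some (Sum.inl i)) rfl]
    · simp only [hUdef]
      rw [h (some (Sum.inr j)) rfl]
  · intro o x y h
    rcases o with _ | _ | i | j
    · rfl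
    · simp only [hWdef]
      rw [h none rfl]
    · rfl
    · simp only [hWdef]
      rw [h (some (Sum.inr j)) rfl]

end dg

end Pool.Agent.T9h77.NF
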