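import Pool.Agent.T9h77.NF.TypD

/-!
# Typical points for number fields, part 5: the theorem
-/

set_option autoImplicit false
set_option linter.unusedSectionVars false

namespace Pool.Agent.T9h77.NF

open Finset NumberField H39Gon Pool.Agent.T9h42.GF Pool.Agent.T9h57.QD
open Pool.Agent.T9h77.QD (IsP exists_le_pav pav_sum)
open scoped TensorProduct

variable (K : Type) [Field K] [NumberField K]

/-- PIECE `TypN`. -/
theorem typN : TypN K := by
  classical
  intro hR hPts hSec hCA m E _ Q P ψ hψ hL hSt ϖ₁ ϖ₂ l hϖ₁ hϖ₂ hl h12 h1l h2l T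
  have hn1 : ∀ ϖ : 𝓞 K, PPow 1 ϖ → ϖ ≠ 0 ∧ ¬ IsUnit ϖ := by
    rintro ϖ ⟨p, hp, hp0, j, hj, h⟩
    have h0 : ϖ ≠ 0 := by
      intro h1
      rw [h1, Ideal.span_singleton_eq_bot.2 rfl] at h
      exact hp0 (pow_eq_zero_iff (by omega) |>.1 h.symm)
    refine ⟨h0, fun hu => ?_⟩
    rw [Ideal.span_singleton_eq_top.2 hu] at h
    have h2 : p ^ j ≤ p := Ideal.pow_le_self (by omega)
    rw [← h] at h2
    exact hp.ne_top (top_le_iff.1 h2)
  have hl0 : l ≠ 0 := by
    obtain ⟨p, hp, hp0, j, hj, h⟩ := hl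
    intro h1
    rw [h1, Ideal.span_singleton_eq_bot.2 rfl] at h
    rcases Nat.eq_zero_or_pos j with h2 | h2
    · rw [h2, pow_zero] at h
      exact bot_ne_top (h.trans Ideal.one_eq_top)
    · exact hp0 (pow_eq_zero_iff (by omega) |>.1 h.symm)
  obtain ⟨s₁, hs₁, hs₁'⟩ := hSec ϖ₁ (hn1 _ hϖ₁).1 (hn1 _ hϖ₁).2
  obtain ⟨s₂, hs₂, hs₂'⟩ := hSec ϖ₂ (hn1 _ hϖ₂).1 (hn1 _ hϖ₂).2
  have habs : ∀ ϖ ε : 𝓞 K, ϖ ≠ 0 → Absb ϖ ε → ε ≠ 0 := by
    rintro ϖ ε h0 ⟨u, k, rfl⟩
    exact mul_ne_zero u.ne_zero (pow_ne_zero _ h0)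
  set r : ℕ := m + 1 with hr
  obtain ⟨N, s, hC⟩ := hCA r (by omega)
  -- the points
  obtain ⟨n, t, C₀, hn, ht, hC₀, hv⟩ := hPts _ (Dm K) (LI K m E) (phi ψ) (by
    intro a ha
    obtain ⟨h1, h2, h3⟩ := hL m (fun k => a (.inl k)) (fun v k => a (.inr (.inl (v, k))))
      (fun i k => a (.inr (.inr (i, k)))) (by
        intro z hz
        have h2 := ha z hz
        rw [sum_LI] at h2
        rw [← h2]
        congr 1
        · congr 1
          refine sum_congr rfl fun v _ => sum_congr rfl fun k _ => ?_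
          simp only [phi]
          ring
        · refine sum_congr rfl fun i _ => sum_congr rfl fun k _ => ?_
          simp only [phi]
          ring)
    funext j
    rcases j with k | ⟨v, k⟩ | ⟨i, k⟩
    · exact congrFun h1 k
    · exact congrFun (congrFun h2 v) k
    · exact congrFun (congrFun h3 i) k)
  have hn0 : 0 < n := by
    rcases Nat.eq_zero_or_pos n with h0 | h0
    · exfalso
      have h1 := hv (fun _ => 1) 0 (fun j => by
        have := j.2
        omega) (.inl 0)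
      norm_num at h1
    · exact h0
  -- the robust theorem
  obtain ⟨δ, hδ, hRob⟩ := hR (max (N + s + 1) (Fintype.card (LI K m E))) r C₀
    (1 / (2 * ((T : ℝ) + 1))) hC₀ (by positivity)
  -- the windows
  have hwin := fun j => window (m := m) ψ hψ (ht j) hδ
  choose ρ hρ hρw using hwin
  -- the count theorem
  obtain ⟨S, hSinv, hcount⟩ := hC ϖ₁ ϖ₂ l δ hϖ₁ hϖ₂ hl h12 h1l h2l hδ
  have hσ₀ : ∀ (j : Fin n) (v : InfinitePlace K), t j v / (t j v - 1) ≠ 0 ∧
      t j v / (t j v - 1) ≠ 1 ∧ (v.IsReal → (t j v / (t j v - 1)).im = 0) := by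
    intro j v
    obtain ⟨h1, h2, h3⟩ := ht j v
    have h4 : t j v ≠ 0 := norm_pos_iff.1 h1
    have h5 : t j v - 1 ≠ 0 := by
      intro h0
      rw [sub_eq_zero] at h0
      rw [h0, norm_one] at h2
      exact lt_irrefl _ h2
    refine ⟨div_ne_zero h4 h5, ?_, fun hv => ?_⟩
    · intro h6
      rw [div_eq_one_iff_eq h5] at h6
      have : (1 : ℂ) = 0 := by
        have h7 : t j v - (t j v - 1) = 0 := sub_eq_zero.2 h6
        rw [sub_sub_cancel] at h7
        exact h7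
      exact one_ne_zero this
    · have h6 : ((t j v).re : ℂ) = t j v := Complex.ext (by simp) (by simp [h3 hv])
      rw [← h6, ← Complex.ofReal_one, ← Complex.ofReal_sub, ← Complex.ofReal_div]
      exact Complex.ofReal_im _
  have hcount' : ∀ (j : Fin n) (x : ℕ), 1 ≤ x → _ :=
    fun j x hx => hcount (fun v => t j v / (t j v - 1)) (ρ j) x (hρ j) hx (hσ₀ j)
  choose w hw using hcount'
  refine ⟨(univ : Finset (Fin n)).sup (fun j => (Icc 1 T).attach.sup
    (fun x => w j x.1 (mem_Icc.1 x.2).1)), fun I _ A ex hI hex hA hp hpf => ?_⟩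
  rcases isEmpty_or_nonempty I with hIe | hIn
  · exact ⟨1, 1, 1, one_ne_zero, one_ne_zero, one_ne_zero, fun i => (hIe.false i).elim⟩
  have hw' : ∀ (j : Fin n) (i : I), _ := fun j i =>
    hw j (ex i) (hex i).1 (A i) (hA i).1 (hA i).2 (fun p hp1 hp0 hpw => hp i p hp1 hp0
      (hpw.trans (by
        refine le_trans ?_ (le_sup (f := fun j => (Icc 1 T).attach.sup
          (fun x => w j x.1 (mem_Icc.1 x.2).1)) (mem_univ j))
        exact le_sup (f := fun x : {x // x ∈ Icc 1 T} => w j x.1 (mem_Icc.1 x.2).1)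
          (mem_attach _ ⟨ex i, mem_Icc.2 (hex i)⟩))))
  choose H₀ hH₀ using hw'
  set H : ℕ := (univ : Finset (Fin n × I)).sup (fun p => H₀ p.1 p.2) with hH
  have hw2 : ∀ (j : Fin n) (i : I), _ := fun j i => hH₀ j i H
    (le_sup (f := fun p : Fin n × I => H₀ p.1 p.2) (mem_univ (j, i)))
  choose D₀ hD₀ using hw2
  set D : ℕ := (univ : Finset (Fin n × I)).sup (fun p => D₀ p.1 p.2) with hD
  obtain ⟨i₀⟩ := hIn
  set j₀ : Fin n := ⟨0, hn0⟩
  obtain ⟨S', hS'⟩ : ∃ S' : Slots K, S' = S (A i₀ * (ϖ₁ * ϖ₂ * l)) H D := ⟨_, rfl⟩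
  have hK : ∀ i, S' = S (A i * (ϖ₁ * ϖ₂ * l)) H D := by
    intro i
    rw [hS']
    have h1 : S (A i₀ * (ϖ₁ * ϖ₂ * l)) = S (A i * (ϖ₁ * ϖ₂ * l)) := by
      refine hSinv _ _ fun p hp1 => ?_
      rw [hp1.mul_mem_iff_mem_or_mem, hp1.mul_mem_iff_mem_or_mem (x := A i), hpf i₀ i p hp1]
    rw [h1]
  have hmain : ∀ (j : Fin n) (i : I), _ := fun j i => hD₀ j i D
    (le_sup (f := fun p : Fin n × I => D₀ p.1 p.2) (mem_univ (j, i))) S' (hK i)
  obtain ⟨hOk, -⟩ := hmain j₀ i₀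
  have hX0 := hOk.1
  have hY0 := hOk.2.1
  have hC0 := hOk.2.2.1
  have hIsP : IsP (S'.p N s) := isP_S hOk N s
  have hW : ∀ (j : Fin n) (i : I), _ := fun j i => (hmain j i).2
  choose W hW0 hWs hWm using hW
  -- the coefficients
  set F : I → LI K m E → (∀ i, S'.Pt N s i) → ℝ := fun i j x =>
      cc Q P (pj s₁ (co (∏ i, (x (some (Sum.inl i))).1) + co (A i) -
          co (∏ j, (x (some (Sum.inr j))).1) - co (l ^ ex i))) (eb s₁)
        (pj s₂ (co (x none).1 - co (∏ j, (x (some (Sum.inr j))).1) - co (l ^ ex i))) (eb s₂) j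
    with hF
  have hx1 : ∀ x : (∀ i, S'.Pt N s i), ∏ i, (x (some (Sum.inl i))).1 ≠ 0 := by
    intro x
    refine prod_ne_zero_iff.2 fun i _ h0 => ?_
    have h1 := (x (some (Sum.inl i))).2
    rw [h0] at h1
    exact hX0 h1
  have hx2 : ∀ x : (∀ i, S'.Pt N s i), ∏ i, (x (some (Sum.inr i))).1 ≠ 0 := by
    intro x
    refine prod_ne_zero_iff.2 fun i _ h0 => ?_
    have h1 := (x (some (Sum.inr i))).2
    rw [h0] at h1
    exact hY0 h1
  have hx3 : ∀ x : (∀ i, S'.Pt N s i), (x none).1 ≠ 0 := by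
    intro x h0
    have h1 := (x none).2
    rw [h0] at h1
    exact hC0 h1
  have hbound : ∀ i : I, pav (S'.p N s) (fun x => if ∀ j, F i j x = 0 then 0 else 1) ≤
      1 / (2 * ((T : ℝ) + 1)) := by
    intro i
    refine hRob (Ix N s) (S'.Pt N s) ?_ (S'.p N s) hIsP.nn hIsP.one (Fin n) (LI K m E) ?_
      (le_max_right _ _) (fun j => W j i)
      (F i) (fun j l => phi ψ l (t j)) ?_ ?_ ?_ hv ?_
    · refine le_trans (le_of_eq ?_) (le_max_left _ _)
      rw [Fintype.card_option, Fintype.card_sum, Fintype.card_fin, Fintype.card_fin]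
    · rw [Fintype.card_fin]
      exact hn.trans (le_max_right _ _)
    · intro j x
      exact hW0 j i x
    · intro j U hU
      exact hWm j i U hU
    · intro j
      exact deg_F Q P hX0 hY0 N s s₁ s₂ _ _ j
    · intro j x hx
      obtain ⟨ε₁, ε₂, ha1, ha2, heq, hσ⟩ := hWs j i x hx
      exact approx Q P ψ hSt s₁ s₂ (hs₁' _ ha1) (hs₂' _ ha2) (hA i).1 (hx1 x) (hx2 x) (hx3 x)
        (pow_ne_zero _ hl0) (habs _ _ (hn1 _ hϖ₁).1 ha1) (habs _ _ (hn1 _ hϖ₂).1 ha2) heq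
        (hρw j) hσ
  -- the union bound
  have hun : pav (S'.p N s) (fun x => ∑ i : I, if ∀ j, F i j x = 0 then (0 : ℝ) else 1) < 1 := by
    rw [pav_sum]
    have h1 : ∑ i : I, pav (S'.p N s) (fun x => if ∀ j, F i j x = 0 then (0 : ℝ) else 1) ≤
        ∑ _i : I, 1 / (2 * ((T : ℝ) + 1)) := sum_le_sum fun i _ => hbound i
    rw [sum_const, card_univ, nsmul_eq_mul] at h1
    have h2 : (Fintype.card I : ℝ) ≤ T := by exact_mod_cast hI
    have h3 : (0 : ℝ) < 1 / (2 * ((T : ℝ) + 1)) := by positivity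
    have h4 : (Fintype.card I : ℝ) * (1 / (2 * ((T : ℝ) + 1))) ≤
        (T : ℝ) * (1 / (2 * ((T : ℝ) + 1))) := mul_le_mul_of_nonneg_right h2 h3.le
    have h5 : (T : ℝ) * (1 / (2 * ((T : ℝ) + 1))) < 1 := by
      rw [mul_one_div, div_lt_one (by positivity)]
      have : (0 : ℝ) ≤ T := Nat.cast_nonneg _
      linarith
    linarith
  obtain ⟨x, hx⟩ := exists_le_pav hIsP
    (fun x => ∑ i : I, if ∀ j, F i j x = 0 then (0 : ℝ) else 1)
  have hzero : ∀ i j, F i j x = 0 := by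
    intro i
    by_contra hcon
    have h1 : (1 : ℝ) ≤ ∑ i : I, if ∀ j, F i j x = 0 then (0 : ℝ) else 1 := by
      have h2 : (if ∀ j, F i j x = 0 then (0 : ℝ) else 1) = 1 := if_neg hcon
      refine h2.symm.le.trans ?_
      exact single_le_sum (f := fun i : I => if ∀ j, F i j x = 0 then (0 : ℝ) else 1)
        (fun i _ => by split_ifs <;> norm_num) (mem_univ i)
    linarith
  refine ⟨_, _, _, hx1 x, hx2 x, hx3 x, fun i => ⟨?_, fun k => ?_⟩⟩
  · have h1 := qq_zero Q P _ (eb s₁) _ (eb s₂)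
      (Lg (co (∏ i, (x (some (Sum.inl i))).1) + co (A i) -
          co (∏ j, (x (some (Sum.inr j))).1) - co (l ^ ex i)))
      (Lg (co (x none).1 - co (∏ j, (x (some (Sum.inr j))).1) - co (l ^ ex i))) (hzero i)
    rw [pj_add_s, pj_add_s] at h1
    exact h1
  · have h1 := rr_zero Q P _ (eb s₁) _ (eb s₂)
      (Lg (co (∏ i, (x (some (Sum.inl i))).1) + co (A i) -
          co (∏ j, (x (some (Sum.inr j))).1) - co (l ^ ex i))) (hzero i) k
    rw [pj_add_s] at h1
    exact h1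

end Pool.Agent.T9h77.NF
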